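import Pool.Agent.U392.SW.Local

set_option autoImplicit false
set_option linter.unusedSectionVars false

/-!
# Two applications of the local criterion
-/

namespace Pool.Agent.U392.SW

open Finset Classical
open Pool.Agent.H234RC (Hypo NonIso Reconstructible)
open Pool.Agent.R694.RC

variable {V : Type} [Fintype V]

def Iso2 (G H : SimpleGraph V) : Prop :=
  ∃ σ : Equiv.Perm V, ∀ x y, H.Adj (σ x) (σ y) ↔ G.Adj x y

theorem Iso2.symm {G H : SimpleGraph V} (h : Iso2 G H) : Iso2 H G := by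
  obtain ⟨σ, h⟩ := h
  refine ⟨σ.symm, fun x y => ?_⟩
  rw [← h, Equiv.apply_symm_apply, Equiv.apply_symm_apply]

theorem Iso2.trans {G H K : SimpleGraph V} (h : Iso2 G H) (h' : Iso2 H K) : Iso2 G K := by
  obtain ⟨σ, h⟩ := h
  obtain ⟨τ, h'⟩ := h'
  refine ⟨σ.trans τ, fun x y => ?_⟩
  rw [Equiv.trans_apply, Equiv.trans_apply, h', h]

theorem iso2_comap (H : SimpleGraph V) (σ : Equiv.Perm V) : Iso2 (H.comap σ) H :=
  ⟨σ, fun _ _ => Iff.rfl⟩

theorem hypo_swap {G H : SimpleGraph V} {π : V → Equiv.Perm V} (hH : Hypo G H π)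
    (σ : Equiv.Perm V) : Hypo (H.comap σ) (G.comap σ)
      (fun z => σ.trans ((π (σ z)).symm.trans σ.symm)) where
  fix := by
    intro z
    rw [Equiv.trans_apply, Equiv.trans_apply, Equiv.symm_apply_eq, Equiv.symm_apply_eq, hH.fix]
  adj := by
    intro z x y hx hy
    rw [SimpleGraph.comap_adj, SimpleGraph.comap_adj]
    simp only [Equiv.trans_apply, Equiv.apply_symm_apply]
    have hne : ∀ u, u ≠ z → (π (σ z)).symm (σ u) ≠ σ z := by
      intro u hu h
      rw [Equiv.symm_apply_eq, hH.fix] at h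
      exact hu (σ.injective h)
    have h := hH.adj (σ z) ((π (σ z)).symm (σ x)) ((π (σ z)).symm (σ y)) (hne x hx) (hne y hy)
    rw [Equiv.apply_symm_apply, Equiv.apply_symm_apply] at h
    exact h.symm

/-- the neighbourhood of `v` is connected at the scale `s` in `G - v` -/
def LC (G : SimpleGraph V) (v : V) (s : ℕ) : Prop :=
  ∀ A : Finset V, (∃ a ∈ A, G.Adj v a) → (∃ c, c ∉ A ∧ G.Adj v c) →
    ∃ t, t ≤ s ∧ ∃ x, PathIn G v t x ∧ G.Adj v (x 0) ∧ x 0 ∈ A ∧ G.Adj v (x (Fin.last t)) ∧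
      x (Fin.last t) ∉ A

theorem dist_path {G : SimpleGraph V} (hc : G.Connected) {t : ℕ} {x : Fin (t + 1) → V}
    (hx : PathG G t x) : ∀ i : ℕ, ∀ hi : i < t + 1, G.dist (x 0) (x ⟨i, hi⟩) ≤ i := by
  intro i
  induction i with
  | zero =>
    intro hi
    have : x ⟨0, hi⟩ = x 0 := rfl
    rw [this, SimpleGraph.dist_self]
  | succ i ih =>
    intro hi
    have h1 := ih (by omega)
    have h2 := hx.2 ⟨i, by omega⟩
    have h3 : G.dist (x ⟨i, by omega⟩) (x ⟨i + 1, hi⟩) = 1 :=
      SimpleGraph.dist_eq_one_iff_adj.mpr h2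
    have h4 := hc.dist_triangle (u := x 0) (v := x ⟨i, by omega⟩) (w := x ⟨i + 1, hi⟩)
    omega

theorem dist_nbr_path {G : SimpleGraph V} (hc : G.Connected) {t : ℕ} {x : Fin (t + 1) → V}
    (hx : PathG G t x) {v : V} (hv : G.Adj v (x 0)) (i : Fin (t + 1)) :
    G.dist v (x i) ≤ i.val + 1 := by
  have h1 : G.dist (x 0) (x i) ≤ i.val := dist_path hc hx i.val i.2
  have h2 := hc.dist_triangle (u := v) (v := x 0) (w := x i)
  have h3 : G.dist v (x 0) = 1 := SimpleGraph.dist_eq_one_iff_adj.mpr hv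
  omega

section
variable {G : SimpleGraph V} {D : ℕ → Prop} {s : ℕ}

theorem far_deg {v : V} (hfar : ∀ z, ¬ D (dg G z) → s + 2 ≤ G.dist v z) : D (dg G v) := by
  by_contra h
  have := hfar v h
  rw [SimpleGraph.dist_self] at this
  omega

theorem far_nbr {v : V} (hfar : ∀ z, ¬ D (dg G z) → s + 2 ≤ G.dist v z) {a : V}
    (ha : G.Adj v a) : D (dg G a) := by
  by_contra h
  have h1 := hfar a h
  rw [SimpleGraph.dist_eq_one_iff_adj.mpr ha] at h1
  omega

theorem first (hV : 3 ≤ Fintype.card V) (hc : G.Connected) (hD : ∀ k, D k → ¬ D (k + 1))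
    {H : SimpleGraph V} {π : V → Equiv.Perm V} (hH : Hypo G H π) (hNI : NonIso G H)
    (hs : s + 2 * (univ.image (dg G)).card ≤ Fintype.card V) (v : V)
    (hfar : ∀ z, ¬ D (dg G z) → s + 2 ≤ G.dist v z) (hLC : LC G v s) :
    ∃ B : Finset V, (∀ x ∈ B, ∃ a, G.Adj v a ∧ dg G a = dg G x + 1) ∧ B.card = dg G v ∧
      H.comap (π v) = rep G v B ∧ ∀ a, G.Adj v a → ∃ b ∈ B, dg G a = dg G b + 1 := by
  obtain ⟨B, h1, h2, _, _, h5, h6⟩ := local_str G hV hH hNI v s hs (by
    intro a b ha hb hab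
    have h7 := far_nbr hfar ha
    rw [hab] at h7
    exact hD _ (far_nbr hfar hb) h7) hLC (by
    rintro t ht x hx h0 ⟨_, _, a, ha, hax⟩
    have h7 := far_nbr hfar ha
    rw [hax] at h7
    have h3 := hfar (x (Fin.last t)) (fun h => hD _ h h7)
    have h4 := dist_nbr_path hc hx.1 h0 (Fin.last t)
    rw [Fin.val_last] at h4
    omega) (univ.filter (fun x => G.Adj v x)) (fun x => by simp)
  exact ⟨B, fun x hx => (h1 x hx).2.2, h2, h5, h6⟩

/-! ### the graph `rep G v B` -/

theorem rep_adj {v : V} {B : Finset V} {x y : V} (hx : x ≠ v) (hy : y ≠ v) :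
    (rep G v B).Adj x y ↔ G.Adj x y := by
  show ((x ≠ v ∧ y ≠ v ∧ G.Adj x y) ∨ (x = v ∧ y ≠ v ∧ y ∈ B) ∨ (y = v ∧ x ≠ v ∧ x ∈ B)) ↔ _
  simp [hx, hy]

theorem rep_adj_right {v : V} {B : Finset V} {x : V} (hx : x ≠ v) :
    (rep G v B).Adj x v ↔ x ∈ B := by
  show ((x ≠ v ∧ v ≠ v ∧ G.Adj x v) ∨ (x = v ∧ v ≠ v ∧ v ∈ B) ∨ (v = v ∧ x ≠ v ∧ x ∈ B)) ↔ _
  simp [hx]

theorem rep_adj_left {v : V} {B : Finset V} {x : V} (hx : x ≠ v) :
    (rep G v B).Adj v x ↔ x ∈ B := by
  rw [SimpleGraph.adj_comm, rep_adj_right hx]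

theorem kp_rep {v : V} {B : Finset V} {x : V} (hx : x ≠ v) :
    kp (rep G v B) v x = kp G v x := by
  unfold kp
  congr 1
  ext y
  rw [mem_filter, mem_filter]
  constructor
  · rintro ⟨h1, h2⟩
    exact ⟨h1, (rep_adj hx (mem_erase.mp h1).1).mp h2⟩
  · rintro ⟨h1, h2⟩
    exact ⟨h1, (rep_adj hx (mem_erase.mp h1).1).mpr h2⟩

theorem dg_rep {v : V} {B : Finset V} {x : V} (hx : x ≠ v) :
    dg (rep G v B) x + (if G.Adj x v then 1 else 0) = dg G x + if x ∈ B then 1 else 0 := by
  rw [dg_eq (rep G v B) v x, dg_eq G v x, kp_rep hx]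
  simp only [rep_adj_right hx]
  ring

theorem dg_rep_self {v : V} {B : Finset V} (hv : v ∉ B) : dg (rep G v B) v = B.card := by
  unfold dg
  congr 1
  ext x
  rw [mem_filter]
  constructor
  · rintro ⟨_, h⟩
    exact (rep_adj_left h.ne').mp h
  · intro h
    have hxv : x ≠ v := by
      intro e
      rw [e] at h
      exact hv h
    exact ⟨mem_univ _, (rep_adj_left hxv).mpr h⟩

theorem second (hV : 3 ≤ Fintype.card V) (hc : G.Connected) (hD : ∀ k, D k → ¬ D (k + 1))
    (v w : V)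
    (hfv : ∀ z, ¬ D (dg G z) → s + 4 ≤ G.dist v z) (hfw : ∀ z, ¬ D (dg G z) → s + 4 ≤ G.dist w z)
    (hvw : s + 4 ≤ G.dist v w) (hLCv : LC G v s) (hLCw : LC G w s) (B : Finset V)
    (hB : ∀ x ∈ B, D (dg G x + 1)) (hBc : B.card = dg G v) (hdvw : dg G v = dg G w)
    (hmatch : ∀ a, G.Adj v a → ∃ a', G.Adj w a' ∧ dg G a' = dg G a) {M : SimpleGraph V}
    {π' : V → Equiv.Perm V}
    (hM : Hypo (rep G v B) M π') (hNI : NonIso (rep G v B) M)
    (hs : s + 2 * (univ.image (dg (rep G v B))).card ≤ Fintype.card V) :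
    ∃ B' : Finset V, M.comap (π' w) = rep (rep G v B) w B' ∧
      (∀ x ∈ B', x ≠ v ∧ x ≠ w ∧ ¬ G.Adj w x ∧ (¬ G.Adj v x → ¬ D (dg G x))) ∧
      ((∀ x, x ∈ B' ↔ G.Adj v x) ∨ ∀ x ∈ B', ¬ G.Adj v x) := by
  have hfv2 : ∀ z, ¬ D (dg G z) → s + 2 ≤ G.dist v z := fun z hz => by have := hfv z hz; omega
  have hfw2 : ∀ z, ¬ D (dg G z) → s + 2 ≤ G.dist w z := fun z hz => by have := hfw z hz; omega
  have hdv : D (dg G v) := far_deg hfv2
  have hdw : D (dg G w) := far_deg hfw2
  have hvw' : s + 4 ≤ G.dist w v := by rw [SimpleGraph.dist_comm]; exact hvw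
  have hwv : w ≠ v := by
    intro h
    rw [h, SimpleGraph.dist_self] at hvw'
    omega
  have hBd : ∀ x ∈ B, ¬ D (dg G x) := fun x hx h => hD _ h (hB x hx)
  have hvB : v ∉ B := fun h => hBd v h hdv
  have hwB : w ∉ B := fun h => hBd w h hdw
  have hd1 : ∀ {a b : V}, G.Adj a b → G.dist a b = 1 :=
    fun h => SimpleGraph.dist_eq_one_iff_adj.mpr h
  -- neighbours of `w`
  have hnw : ∀ a, (rep G v B).Adj w a ↔ G.Adj w a := by
    intro a
    by_cases ha : a = v
    · rw [ha, rep_adj_right hwv]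
      constructor
      · intro h
        exact absurd h hwB
      · intro h
        have := hd1 h
        omega
    · exact rep_adj hwv ha
  have hwa : ∀ a, G.Adj w a → a ≠ v ∧ ¬ G.Adj v a := by
    intro a ha
    constructor
    · intro h
      rw [h] at ha
      have := hd1 ha
      omega
    · intro h
      have h1 := hc.dist_triangle (u := w) (v := a) (w := v)
      have h2 := hd1 ha
      have h3 := hd1 h.symm
      omega
  have hdK : ∀ a, G.Adj w a → dg (rep G v B) a = dg G a := by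
    intro a ha
    obtain ⟨h1, h2⟩ := hwa a ha
    have h3 := dg_rep (G := G) (B := B) h1
    rw [if_neg (fun h => h2 h.symm), if_neg (fun h => hBd a h (far_nbr hfw2 ha))] at h3
    omega
  have hdKw : dg (rep G v B) w = dg G w := by
    have h3 := dg_rep (G := G) (B := B) hwv
    rw [if_neg (fun h => by have := hd1 h; omega), if_neg hwB] at h3
    omega
  have hdKv : dg (rep G v B) v = dg G v := by
    rw [dg_rep_self hvB, hBc]
  -- paths near `w`
  have hpath : ∀ t, t ≤ s → ∀ x : Fin (t + 1) → V, PathIn (rep G v B) w t x → G.Adj w (x 0) →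
      ∀ i : ℕ, ∀ hi : i < t + 1, x ⟨i, hi⟩ ≠ v ∧ G.dist w (x ⟨i, hi⟩) ≤ i + 1 := by
    intro t ht x hx h0 i
    induction i with
    | zero =>
      intro hi
      have h1 : x ⟨0, hi⟩ = x 0 := rfl
      rw [h1]
      exact ⟨(hwa _ h0).1, (hd1 h0).le⟩
    | succ i ih =>
      intro hi
      obtain ⟨h1, h2⟩ := ih (by omega)
      have h3 : (rep G v B).Adj (x ⟨i, by omega⟩) (x ⟨i + 1, hi⟩) := hx.1.2 ⟨i, by omega⟩
      have h4 : x ⟨i + 1, hi⟩ ≠ v := by
        intro h
        rw [h, rep_adj_right h1] at h3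
        have := hfw _ (hBd _ h3)
        omega
      rw [rep_adj h1 h4] at h3
      have h5 := hc.dist_triangle (u := w) (v := x ⟨i, by omega⟩) (w := x ⟨i + 1, hi⟩)
      have h6 := hd1 h3
      exact ⟨h4, by omega⟩
  -- the neighbours of `v` are in the class
  have hTN : ∀ a, G.Adj v a → Tv (rep G v B) w a := by
    intro a ha
    have h1 : a ≠ w := by
      intro h
      rw [h] at ha
      have := hd1 ha
      omega
    have h2 : ¬ (rep G v B).Adj w a := by
      rw [hnw]
      intro h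
      exact (hwa a h).2 ha
    obtain ⟨a', ha', haa⟩ := hmatch a ha
    refine ⟨h1, h2, a', (hnw a').mpr ha', ?_⟩
    have h3 := dg_rep (G := G) (B := B) ha.ne'
    rw [if_pos ha.symm, if_neg (fun h => hBd a h (far_nbr hfv2 ha))] at h3
    rw [hdK a' ha', haa]
    omega
  obtain ⟨B', b1, b2, b3, _, b5, _⟩ := local_str (rep G v B) hV hM hNI w s hs (by
    intro a b ha hb hab
    rw [hnw] at ha hb
    rw [hdK a ha, hdK b hb] at hab
    have h7 := far_nbr hfw2 ha
    rw [hab] at h7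
    exact hD _ (far_nbr hfw2 hb) h7) (by
    intro A hA hA'
    simp only [hnw] at hA hA' ⊢
    obtain ⟨t, ht, x, h1, h2, h3, h4, h5⟩ := hLCw A hA hA'
    refine ⟨t, ht, x, ⟨⟨h1.1.1, fun i => ?_⟩, h1.2⟩, h2, h3, h4, h5⟩
    have h6 : ∀ j, x j ≠ v := by
      intro j hj
      have h7 := dist_nbr_path hc h1.1 h2 j
      rw [hj] at h7
      have := j.2
      omega
    exact (rep_adj (h6 _) (h6 _)).mpr (h1.1.2 i)) (by
    rintro t ht x hx h0 ⟨h1, h2, a, h3, h4⟩
    rw [hnw] at h0 h3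
    rw [hdK a h3] at h4
    have hDa := far_nbr hfw2 h3
    obtain ⟨h5, h6⟩ := hpath t ht x hx h0 t (by omega)
    have h7 : x ⟨t, by omega⟩ = x (Fin.last t) := rfl
    rw [h7] at h5 h6
    have h8 := dg_rep (G := G) (B := B) h5
    by_cases h9 : G.Adj (x (Fin.last t)) v
    · have h10 := hc.dist_triangle (u := w) (v := x (Fin.last t)) (w := v)
      have h11 := hd1 h9
      omega
    · rw [if_neg h9] at h8
      by_cases h12 : x (Fin.last t) ∈ B
      · rw [if_pos h12] at h8
        have h13 := hB _ h12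
        rw [show dg G a = dg G (x (Fin.last t)) + 1 + 1 by omega] at hDa
        exact hD _ h13 hDa
      · rw [if_neg h12] at h8
        rw [show dg G a = dg G (x (Fin.last t)) + 1 by omega] at hDa
        have := hfw (x (Fin.last t)) (fun h => hD _ h hDa)
        omega) (univ.filter (fun x => (rep G v B).Adj w x)) (fun x => by simp)
  refine ⟨B', b5, ?_, ?_⟩
  · intro x hx
    obtain ⟨h1, h2, a, h3, h4⟩ := b1 x hx
    rw [hnw] at h3 h2
    rw [hdK a h3] at h4
    have hDa := far_nbr hfw2 h3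
    have hxv : x ≠ v := by
      intro h
      rw [h, hdKv] at h4
      rw [h4] at hDa
      exact hD _ hdv hDa
    refine ⟨hxv, h1, h2, fun h5 => ?_⟩
    have h6 := dg_rep (G := G) (B := B) hxv
    rw [if_neg (fun h => h5 h.symm)] at h6
    by_cases h7 : x ∈ B
    · exact hBd x h7
    · rw [if_neg h7] at h6
      rw [show dg G a = dg G x + 1 by omega] at hDa
      exact fun h => hD _ h hDa
  · by_cases hmeet : ∃ a ∈ B', G.Adj v a
    · left
      have hsub : ∀ a, G.Adj v a → a ∈ B' := by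
        by_contra hcon
        push Not at hcon
        obtain ⟨c, hc1, hc2⟩ := hcon
        obtain ⟨t, ht, x, h1, h2, h3, h4, h5⟩ := hLCv B' hmeet ⟨c, hc2, hc1⟩
        apply h5
        refine b3 t ht x ⟨⟨h1.1.1, fun i => (rep_adj (h1.2 _) (h1.2 _)).mpr (h1.1.2 i)⟩, ?_⟩ h3
          (hTN _ h4)
        intro j hj
        have h7 := dist_nbr_path hc h1.1 h2 j
        rw [hj] at h7
        have := j.2
        omega
      have heq : univ.filter (fun x => G.Adj v x) = B' := by
        apply eq_of_subset_of_card_le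
        · intro x hx
          exact hsub x (mem_filter.mp hx).2
        · rw [b2, hdKw, ← hdvw]
          rfl
      intro x
      rw [← heq]
      simp
    · right
      push Not at hmeet
      exact hmeet

/-- interchanging `v` and `w` -/
theorem rep_swap {v w : V} (hvw : v ≠ w) (hnadj : ¬ G.Adj v w) {B N : Finset V} (hv : v ∉ B)
    (hN : ∀ x, x ∈ N ↔ G.Adj v x) :
    Iso2 (rep (rep G v B) w N) (rep G w B) := by
  refine ⟨Equiv.swap v w, fun x y => ?_⟩
  have hvN : v ∉ N := fun h => G.irrefl ((hN v).mp h)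
  have hwN : w ∉ N := fun h => hnadj ((hN w).mp h)
  have key : ∀ y, y ≠ v → y ≠ w → ((rep G w B).Adj w y ↔ (rep (rep G v B) w N).Adj v y) := by
    intro y h1 h2
    rw [rep_adj_left h2, rep_adj hvw h2, rep_adj_left h1]
  have key2 : ∀ y, y ≠ v → y ≠ w → ((rep G w B).Adj v y ↔ (rep (rep G v B) w N).Adj w y) := by
    intro y h1 h2
    rw [rep_adj hvw h2, rep_adj_left h2, hN]
  by_cases hxv : x = v
  · rw [hxv, Equiv.swap_apply_left]
    by_cases hyv : y = v
    · rw [hyv, Equiv.swap_apply_left]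
      exact ⟨fun h => absurd h (SimpleGraph.irrefl _), fun h => absurd h (SimpleGraph.irrefl _)⟩
    · by_cases hyw : y = w
      · rw [hyw, Equiv.swap_apply_right, rep_adj_left hvw, rep_adj_right hvw]
        exact ⟨fun h => absurd h hv, fun h => absurd h hvN⟩
      · rw [Equiv.swap_apply_of_ne_of_ne hyv hyw]
        exact key y hyv hyw
  · by_cases hxw : x = w
    · rw [hxw, Equiv.swap_apply_right]
      by_cases hyv : y = v
      · rw [hyv, Equiv.swap_apply_left, rep_adj_right hvw, rep_adj_left hvw]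
        exact ⟨fun h => absurd h hv, fun h => absurd h hvN⟩
      · by_cases hyw : y = w
        · rw [hyw, Equiv.swap_apply_right]
          exact ⟨fun h => absurd h (SimpleGraph.irrefl _), fun h => absurd h (SimpleGraph.irrefl _)⟩
        · rw [Equiv.swap_apply_of_ne_of_ne hyv hyw]
          exact key2 y hyv hyw
    · rw [Equiv.swap_apply_of_ne_of_ne hxv hxw]
      by_cases hyv : y = v
      · rw [hyv, Equiv.swap_apply_left, SimpleGraph.adj_comm,
          (rep (rep G v B) w N).adj_comm]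
        exact key x hxv hxw
      · by_cases hyw : y = w
        · rw [hyw, Equiv.swap_apply_right, SimpleGraph.adj_comm,
            (rep (rep G v B) w N).adj_comm]
          exact key2 x hxv hxw
        · rw [Equiv.swap_apply_of_ne_of_ne hyv hyw, rep_adj hxw hyw, rep_adj hxw hyw,
            rep_adj hxv hyv]

end

end Pool.Agent.U392.SW
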