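import Pool.Agent.U392.SW.Big1

set_option autoImplicit false
set_option linter.unusedSectionVars false

/-!
# Distances between the irregular vertices, and the pigeonhole argument
-/

namespace Pool.Agent.U392.SW

open Finset Classical
open Pool.Agent.H234RC (Hypo NonIso Reconstructible)
open Pool.Agent.R694.RC

variable {V : Type} [Fintype V] {G : SimpleGraph V}

theorem geod (hc : G.Connected) {g : ℕ → V} {L : ℕ} (hadj : ∀ i, i < L → G.Adj (g i) (g (i + 1)))
    (hL : G.dist (g 0) (g L) = L) : ∀ i j, i ≤ j → j ≤ L → G.dist (g i) (g j) = j - i := by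
  have hle : ∀ m i, i + m ≤ L → G.dist (g i) (g (i + m)) ≤ m := by
    intro m
    induction m with
    | zero =>
      intro i _
      rw [add_zero, SimpleGraph.dist_self]
    | succ m ih =>
      intro i hi
      have h1 := ih i (by omega)
      have h2 := hc.dist_triangle (u := g i) (v := g (i + m)) (w := g (i + m + 1))
      have h3 : G.dist (g (i + m)) (g (i + m + 1)) = 1 :=
        SimpleGraph.dist_eq_one_iff_adj.mpr (hadj _ (by omega))
      have h4 : i + (m + 1) = i + m + 1 := by ring
      rw [h4]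
      omega
  intro i j hij hj
  have h1 := hle i 0 (by omega)
  have h2 := hle (j - i) i (by omega)
  have h3 := hle (L - j) j (by omega)
  rw [zero_add] at h1
  rw [show i + (j - i) = j by omega] at h2
  rw [show j + (L - j) = L by omega] at h3
  have h4 := hc.dist_triangle (u := g 0) (v := g i) (w := g L)
  have h5 := hc.dist_triangle (u := g i) (v := g j) (w := g L)
  omega

theorem lower (hc : G.Connected) {v w : V} {B B' : Finset V} {R : ℕ}
    (hB : ∀ x ∈ B, R ≤ G.dist v x) (hB' : ∀ x ∈ B', R ≤ G.dist v x) :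
    ∀ {a b : V} (q : (rep (rep G v B) w B').Walk a b), a ≠ v → a ≠ w → b ≠ v → b ≠ w →
      R ≤ G.dist v a + q.length ∨ G.dist v b ≤ G.dist v a + q.length := by
  intro a b q
  induction q with
  | nil =>
    intro _ _ _ _
    right
    omega
  | @cons a c b h q ih =>
    intro hav haw hbv hbw
    rw [SimpleGraph.Walk.length_cons]
    by_cases hcw : c = w
    · rw [hcw, rep_adj_right haw] at h
      left
      have := hB' a h
      omega
    · rw [rep_adj haw hcw] at h
      by_cases hcv : c = v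
      · rw [hcv, rep_adj_right hav] at h
        left
        have := hB a h
        omega
      · rw [rep_adj hav hcv] at h
        have h1 := ih hcv hcw hbv hbw
        have h2 := hc.dist_triangle (u := v) (v := a) (w := c)
        have h3 : G.dist a c = 1 := SimpleGraph.dist_eq_one_iff_adj.mpr h
        rcases h1 with h1 | h1
        · left
          omega
        · right
          omega

theorem pairDist (hc : G.Connected) {v w : V} {B B' : Finset V} {R : ℕ} (hδ : 4 ≤ G.dist v w)
    (hR : G.dist v w ≤ R) (hB : ∀ x ∈ B, R ≤ G.dist v x) (hB' : ∀ x ∈ B', R ≤ G.dist v x) :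
    ∃ x y, G.Adj v x ∧ G.Adj w y ∧ (rep (rep G v B) w B').Reachable x y ∧
      (rep (rep G v B) w B').dist x y + 2 = G.dist v w := by
  have hvw : v ≠ w := by
    intro h
    rw [h, SimpleGraph.dist_self] at hδ
    omega
  obtain ⟨p, hp⟩ := hc.exists_walk_length_eq_dist v w
  set L := G.dist v w with hL
  set g : ℕ → V := p.getVert with hg
  have g0 : g 0 = v := p.getVert_zero
  have gL : g L = w := by
    rw [← hp]
    exact p.getVert_length
  have hadj : ∀ i, i < L → G.Adj (g i) (g (i + 1)) := by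
    intro i hi
    exact p.adj_getVert_succ (by rw [hp]; exact hi)
  have hgd := geod hc hadj (by rw [g0, gL])
  have hne : ∀ i, 1 ≤ i → i < L → g i ≠ v ∧ g i ≠ w := by
    intro i h1 h2
    have h3 := hgd 0 i (by omega) (by omega)
    rw [g0] at h3
    constructor
    · intro h
      rw [h, SimpleGraph.dist_self] at h3
      omega
    · intro h
      rw [h] at h3
      omega
  have hwalk : ∀ j, 1 + j < L → ∃ q : (rep (rep G v B) w B').Walk (g 1) (g (1 + j)),
      q.length = j := by
    intro j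
    induction j with
    | zero =>
      intro _
      exact ⟨SimpleGraph.Walk.nil, rfl⟩
    | succ j ih =>
      intro hj
      obtain ⟨q, hq⟩ := ih (by omega)
      have h1 := hne (1 + j) (by omega) (by omega)
      have h2 := hne (1 + (j + 1)) (by omega) (by omega)
      have h3 : (rep (rep G v B) w B').Adj (g (1 + j)) (g (1 + (j + 1))) := by
        rw [rep_adj h1.2 h2.2, rep_adj h1.1 h2.1]
        exact hadj (1 + j) (by omega)
      exact ⟨q.concat h3, by rw [SimpleGraph.Walk.length_concat, hq]⟩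
  obtain ⟨q, hq⟩ : ∃ q : (rep (rep G v B) w B').Walk (g 1) (g (L - 1)), q.length = L - 2 := by
    have h := hwalk (L - 2) (by omega)
    rwa [show 1 + (L - 2) = L - 1 by omega] at h
  have hx := hadj 0 (by omega)
  rw [g0, zero_add] at hx
  have hy := hadj (L - 1) (by omega)
  rw [show L - 1 + 1 = L by omega, gL] at hy
  refine ⟨g 1, g (L - 1), hx, hy.symm, ⟨q⟩, ?_⟩
  have h4 : (rep (rep G v B) w B').dist (g 1) (g (L - 1)) ≤ L - 2 := by
    rw [← hq]
    exact SimpleGraph.dist_le q
  have hreach : (rep (rep G v B) w B').Reachable (g 1) (g (L - 1)) := ⟨q⟩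
  obtain ⟨q', hq'⟩ := hreach.exists_walk_length_eq_dist
  have h5 := hne 1 le_rfl (by omega)
  have h6 := hne (L - 1) (by omega) (by omega)
  have h7 := lower hc hB hB' q' h5.1 h5.2 h6.1 h6.2
  have h8 := hgd 0 1 (by omega) (by omega)
  have h9 := hgd 0 (L - 1) (by omega) (by omega)
  rw [g0] at h8 h9
  omega

theorem iso_dist {K : SimpleGraph V} (hc : G.Connected) {σ : Equiv.Perm V}
    (h : ∀ x y, G.Adj (σ x) (σ y) ↔ K.Adj x y) {x y : V} (hr : K.Reachable x y) :
    G.dist (σ x) (σ y) = K.dist x y := by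
  apply le_antisymm
  · obtain ⟨q, hq⟩ := hr.exists_walk_length_eq_dist
    let f : K →g G := ⟨σ, fun {a b} hab => (h a b).mpr hab⟩
    have h1 : G.dist (f x) (f y) ≤ (q.map f).length := SimpleGraph.dist_le _
    rw [SimpleGraph.Walk.length_map, hq] at h1
    exact h1
  · obtain ⟨q, hq⟩ := hc.exists_walk_length_eq_dist (σ x) (σ y)
    let f : G →g K := ⟨σ.symm, fun {a b} hab => by
      rw [← h, Equiv.apply_symm_apply, Equiv.apply_symm_apply]
      exact hab⟩
    have h1 : K.dist (f (σ x)) (f (σ y)) ≤ (q.map f).length := SimpleGraph.dist_le _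
    rw [SimpleGraph.Walk.length_map, hq] at h1
    have h2 : ∀ z, f (σ z) = z := fun z => σ.symm_apply_apply z
    rw [h2, h2] at h1
    exact h1

theorem iso_dg {K : SimpleGraph V} {σ : Equiv.Perm V}
    (h : ∀ x y, G.Adj (σ x) (σ y) ↔ K.Adj x y) (x : V) : dg G (σ x) = dg K x := by
  have h1 : K = G.comap σ := by
    ext a b
    rw [SimpleGraph.comap_adj, h]
  rw [h1, dg_comap]

theorem pair (hV : 3 ≤ Fintype.card V) (hc : G.Connected) {D : ℕ → Prop}
    (hD : ∀ k, D k → ¬ D (k + 1)) {H : SimpleGraph V}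
    {π : V → Equiv.Perm V} (hH : Hypo G H π) (hNI : NonIso G H) {s R : ℕ}
    (hs : s + 2 * (univ.image (dg G)).card ≤ Fintype.card V) (v w : V) (hR : s + 4 ≤ R)
    (hfv : ∀ z, ¬ D (dg G z) → R ≤ G.dist v z) (hfw : ∀ z, ¬ D (dg G z) → R ≤ G.dist w z)
    (hvw : s + 4 ≤ G.dist v w) (hvwR : G.dist v w ≤ R) (hLCv : LC G v s) (hLCw : LC G w s)
    (B : Finset V) (hB : ∀ x ∈ B, ∃ a, G.Adj w a ∧ dg G a = dg G x + 1)
    (hB2 : ∀ a, G.Adj v a → ∃ b ∈ B, dg G a = dg G b + 1)
    (hBc : B.card = dg G v) (hBc' : B.card = dg G w)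
    (hv : H.comap (π v) = rep G v B) (hw : H.comap (π w) = rep G w B) :
    ∃ x y, ¬ D (dg G x) ∧ ¬ D (dg G y) ∧ G.dist x y + 2 = G.dist v w := by
  have hfv4 : ∀ z, ¬ D (dg G z) → s + 4 ≤ G.dist v z := fun z hz => hR.trans (hfv z hz)
  have hfw4 : ∀ z, ¬ D (dg G z) → s + 4 ≤ G.dist w z := fun z hz => hR.trans (hfw z hz)
  have hfv2 : ∀ z, ¬ D (dg G z) → s + 2 ≤ G.dist v z := fun z hz => by have := hfv4 z hz; omega
  have hfw2 : ∀ z, ¬ D (dg G z) → s + 2 ≤ G.dist w z := fun z hz => by have := hfw4 z hz; omega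
  have hdv : D (dg G v) := far_deg hfv2
  have hdw : D (dg G w) := far_deg hfw2
  have hBD : ∀ x ∈ B, D (dg G x + 1) := by
    intro x hx
    obtain ⟨a, ha, hax⟩ := hB x hx
    rw [← hax]
    exact far_nbr hfw2 ha
  have hBd : ∀ x ∈ B, ¬ D (dg G x) := fun x hx h => hD _ h (hBD x hx)
  have hvw' : v ≠ w := by
    intro h
    rw [h, SimpleGraph.dist_self] at hvw
    omega
  have hd1 : ∀ {a b : V}, G.Adj a b → G.dist a b = 1 :=
    fun h => SimpleGraph.dist_eq_one_iff_adj.mpr h
  have hnadj : ¬ G.Adj v w := fun h => by have := hd1 h; omega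
  have hvB : v ∉ B := fun h => hBd v h hdv
  have hwB : w ∉ B := fun h => hBd w h hdw
  have hM : Hypo (rep G v B) (G.comap (π v))
      (fun z => (π v).trans ((π ((π v) z)).symm.trans (π v).symm)) := by
    rw [← hv]
    exact hypo_swap hH (π v)
  have hNM : NonIso (rep G v B) (G.comap (π v)) := by
    intro h
    have h1 : Iso2 (rep G v B) (G.comap (π v)) := h
    have h2 : Iso2 (rep G v B) H := by
      rw [← hv]
      exact iso2_comap H _
    exact hNI ((iso2_comap G (π v)).symm.trans (h1.symm.trans h2))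
  have himg : univ.image (dg (rep G v B)) = univ.image (dg G) := by
    have h1 : ∀ x, dg (rep G v B) x = dg G (π v x) := by
      intro x
      rw [← hv, dg_comap, dg_hypo hH hV]
    ext k
    rw [mem_image, mem_image]
    constructor
    · rintro ⟨x, _, hx⟩
      exact ⟨π v x, mem_univ _, by rw [← h1]; exact hx⟩
    · rintro ⟨x, _, hx⟩
      exact ⟨(π v).symm x, mem_univ _, by rw [h1, Equiv.apply_symm_apply]; exact hx⟩
  obtain ⟨B', c1, c2, c3⟩ := second hV hc hD v w hfv4 hfw4 hvw hLCv hLCw B hBD hBc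
    (by rw [← hBc, ← hBc']) (by
      intro a ha
      obtain ⟨b, hb, hab⟩ := hB2 a ha
      obtain ⟨a', ha', hab'⟩ := hB b hb
      exact ⟨a', ha', by rw [hab', hab]⟩) hM hNM
    (by rw [himg]; exact hs)
  rcases c3 with c3 | c3
  · exfalso
    have h1 : Iso2 (rep (rep G v B) w B') (rep G w B) := rep_swap hvw' hnadj hvB c3
    have h2 : Iso2 (rep (rep G v B) w B') (G.comap (π v)) := by
      rw [← c1]
      exact iso2_comap _ _
    have h3 : Iso2 (rep G w B) H := by
      rw [← hw]
      exact iso2_comap _ _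
    exact hNI ((iso2_comap G (π v)).symm.trans (h2.symm.trans (h1.trans h3)))
  · have h1 : Iso2 (rep (rep G v B) w B') G := by
      rw [← c1]
      exact (iso2_comap _ _).trans (iso2_comap _ _)
    obtain ⟨σ, hσ⟩ := h1
    obtain ⟨x, y, hx, hy, hr, hxy⟩ := pairDist (B := B) (B' := B') (R := R) hc (by omega) hvwR
      (fun x hx => hfv x (hBd x hx)) (fun x hx => by
        obtain ⟨_, _, _, h5⟩ := c2 x hx
        exact hfv x (h5 (c3 x hx)))
    refine ⟨σ x, σ y, ?_, ?_, by rw [iso_dist hc hσ hr]; exact hxy⟩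
    · rw [iso_dg hσ]
      have hxw : x ≠ w := by
        intro h
        rw [h] at hx
        exact hnadj hx
      have e1 := dg_rep (G := rep G v B) (v := w) (B := B') hxw
      have e2 := dg_rep (G := G) (v := v) (B := B) hx.ne'
      have e3 : ¬ (rep G v B).Adj x w := by
        rw [rep_adj hx.ne' hvw'.symm]
        intro h
        have h6 := hc.dist_triangle (u := v) (v := x) (w := w)
        have h7 := hd1 h
        have h8 := hd1 hx
        omega
      have e4 : x ∉ B' := fun h => c3 x h hx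
      have e5 : D (dg G x) := far_nbr hfv2 hx
      have e6 : x ∉ B := fun h => hBd x h e5
      rw [if_neg e3, if_neg e4] at e1
      rw [if_pos hx.symm, if_neg e6] at e2
      rw [show dg G x = dg (rep (rep G v B) w B') x + 1 by omega] at e5
      exact fun h => hD _ h e5
    · rw [iso_dg hσ]
      have hyv : y ≠ v := by
        intro h
        rw [h] at hy
        exact hnadj hy.symm
      have hyw : y ≠ w := hy.ne'
      have e1 := dg_rep (G := rep G v B) (v := w) (B := B') hyw
      have e2 := dg_rep (G := G) (v := v) (B := B) hyv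
      have e3 : (rep G v B).Adj y w := by
        rw [rep_adj hyv hvw'.symm]
        exact hy.symm
      have e4 : y ∉ B' := fun h => (c2 y h).2.2.1 hy
      have e5 : D (dg G y) := far_nbr hfw2 hy
      have e6 : y ∉ B := fun h => hBd y h e5
      have e7 : ¬ G.Adj y v := by
        intro h
        have h6 := hc.dist_triangle (u := v) (v := y) (w := w)
        have h7 := hd1 h.symm
        have h8 := hd1 hy.symm
        omega
      rw [if_pos e3, if_neg e4] at e1
      rw [if_neg e7, if_neg e6] at e2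
      rw [show dg G y = dg (rep (rep G v B) w B') y + 1 by omega] at e5
      exact fun h => hD _ h e5

theorem big (hV : 3 ≤ Fintype.card V) (hc : G.Connected) {D : ℕ → Prop}
    (hD : ∀ k, D k → ¬ D (k + 1)) {H : SimpleGraph V}
    {π : V → Equiv.Perm V} (hH : Hypo G H π) (hNI : NonIso G H) {s R k M : ℕ}
    (hs : s + 2 * (univ.image (dg G)).card ≤ Fintype.card V)
    (hZ : (univ.filter (fun z => ¬ D (dg G z))).card ≤ k) (hR : s + 4 ≤ R) (hMR : M ≤ R)
    (hM : 2 ^ k * (k ^ 2 + s + 4) ≤ M) (g : ℕ → V)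
    (hg : ∀ i j, i ≤ j → j ≤ M → G.dist (g i) (g j) = j - i)
    (hfar : ∀ i, i ≤ M → ∀ z, ¬ D (dg G z) → R ≤ G.dist (g i) z)
    (hLC : ∀ i, i ≤ M → LC G (g i) s) : False := by
  set Z : Finset V := univ.filter (fun z => ¬ D (dg G z)) with hZdef
  have hmZ : ∀ z, z ∈ Z ↔ ¬ D (dg G z) := by
    intro z
    simp [Z]
  have hfar2 : ∀ i, i ≤ M → ∀ z, ¬ D (dg G z) → s + 2 ≤ G.dist (g i) z :=
    fun i hi z hz => by have := hfar i hi z hz; omega
  have h1 : ∀ i, i ≤ M → ∃ B : Finset V,
      (∀ x ∈ B, ∃ a, G.Adj (g i) a ∧ dg G a = dg G x + 1) ∧ B.card = dg G (g i) ∧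
      H.comap (π (g i)) = rep G (g i) B ∧ ∀ a, G.Adj (g i) a → ∃ b ∈ B, dg G a = dg G b + 1 := by
    intro i hi
    exact first hV hc hD hH hNI hs (g i) (hfar2 i hi) (hLC i hi)
  choose! B hB using h1
  have hmaps : ∀ i ∈ range (M + 1), B i ∈ Z.powerset := by
    intro i hi
    have hi' : i ≤ M := by rw [mem_range] at hi; omega
    rw [mem_powerset]
    intro x hx
    obtain ⟨a, ha, hax⟩ := (hB i hi').1 x hx
    have h2 := far_nbr (hfar2 i hi') ha
    rw [hax] at h2
    rw [hmZ]
    exact fun h => hD _ h h2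
  have hpow : Z.powerset.card * (k ^ 2 + s + 4) < (range (M + 1)).card := by
    rw [card_powerset, card_range]
    have h2 : 2 ^ Z.card ≤ 2 ^ k := Nat.pow_le_pow_right (by norm_num) hZ
    have h3 := Nat.mul_le_mul_right (k ^ 2 + s + 4) h2
    omega
  obtain ⟨B0, _, hfib⟩ := exists_lt_card_fiber_of_mul_lt_card_of_maps_to hmaps hpow
  set S := (range (M + 1)).filter (fun i => B i = B0) with hS
  have hSne : S.Nonempty := card_pos.mp (by omega)
  have hSm : ∀ i ∈ S, i ≤ M ∧ B i = B0 := by
    intro i hi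
    rw [hS, mem_filter, mem_range] at hi
    exact ⟨by omega, hi.2⟩
  set a := S.min' hSne with ha
  have haS : a ∈ S := min'_mem S hSne
  have hamin : ∀ i ∈ S, a ≤ i := fun i hi => min'_le S i hi
  set S' := S.filter (fun i => a + s + 4 ≤ i) with hS'
  have hc1 : S.card ≤ S'.card + (s + 4) := by
    have h3 := card_filter_add_card_filter_not (s := S) (fun i => a + s + 4 ≤ i)
    rw [← hS'] at h3
    have h2 : (S.filter (fun i => ¬ a + s + 4 ≤ i)).card ≤ (Ico a (a + s + 4)).card := by
      apply card_le_card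
      intro i hi
      rw [mem_filter] at hi
      rw [mem_Ico]
      exact ⟨hamin i hi.1, by omega⟩
    rw [Nat.card_Ico] at h2
    omega
  have hc2 : S'.card ≤ ((Z ×ˢ Z).image (fun p => G.dist p.1 p.2)).card := by
    apply card_le_card_of_injOn (fun b => b - a - 2)
    · intro b hb
      rw [mem_coe, hS', mem_filter] at hb
      obtain ⟨ha1, ha2⟩ := hSm a haS
      obtain ⟨hb1, hb2⟩ := hSm b hb.1
      have hdist := hg a b (by omega) hb1
      obtain ⟨p1, p2, p3, p4⟩ := hB a ha1
      obtain ⟨q1, q2, q3, q4⟩ := hB b hb1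
      rw [ha2] at p1 p2 p3 p4
      rw [hb2] at q1 q2 q3 q4
      obtain ⟨x, y, hx, hy, hxy⟩ := pair hV hc hD hH hNI hs (g a) (g b) hR (hfar a ha1)
        (hfar b hb1) (by omega) (by omega) (hLC a ha1) (hLC b hb1) B0 q1 p4 p2 q2 p3 q3
      rw [mem_coe, mem_image]
      refine ⟨(x, y), mem_product.mpr ⟨(hmZ x).mpr hx, (hmZ y).mpr hy⟩, ?_⟩
      show G.dist x y = b - a - 2
      omega
    · intro b hb b' hb' h
      rw [mem_coe, hS', mem_filter] at hb hb'
      have h' : b - a - 2 = b' - a - 2 := h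
      omega
  have hc3 : ((Z ×ˢ Z).image (fun p => G.dist p.1 p.2)).card ≤ k ^ 2 := by
    refine card_image_le.trans ?_
    rw [card_product, sq]
    exact Nat.mul_le_mul hZ hZ
  omega

end Pool.Agent.U392.SW
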