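import Pool.Agent.U392.SW.Big2

set_option autoImplicit false
set_option linter.unusedSectionVars false

/-!
# Large graphs of bounded degree
-/

namespace Pool.Agent.U392.SW

open Finset Classical
open Pool.Agent.H234RC (Hypo NonIso Reconstructible)
open Pool.Agent.R694.RC
open Pool.Agent.TH87.RVE (rec_of)

variable {V : Type} [Fintype V]

theorem ball_card {G : SimpleGraph V} (hc : G.Connected) {Δ : ℕ} (hΔ : ∀ x, dg G x ≤ Δ) (z : V) :
    ∀ j, (univ.filter (fun x => G.dist x z ≤ j)).card ≤ (Δ + 1) ^ j := by
  intro j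
  induction j with
  | zero =>
    rw [pow_zero, card_le_one]
    intro x hx y hy
    rw [mem_filter] at hx hy
    rw [hc.dist_eq_zero_iff.mp (Nat.le_zero.mp hx.2), hc.dist_eq_zero_iff.mp (Nat.le_zero.mp hy.2)]
  | succ j ih =>
    have hsub : univ.filter (fun x => G.dist x z ≤ j + 1) ⊆
        (univ.filter (fun x => G.dist x z ≤ j)).biUnion
          (fun y => insert y (univ.filter (fun x => G.Adj y x))) := by
      intro x hx
      rw [mem_filter] at hx
      rw [mem_biUnion]
      by_cases h : G.dist x z ≤ j
      · exact ⟨x, mem_filter.mpr ⟨mem_univ _, h⟩, mem_insert_self _ _⟩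
      · obtain ⟨p, hp⟩ := hc.exists_walk_length_eq_dist x z
        cases p with
        | nil =>
          rw [SimpleGraph.Walk.length_nil] at hp
          omega
        | @cons _ y _ hxy q =>
          rw [SimpleGraph.Walk.length_cons] at hp
          refine ⟨y, mem_filter.mpr ⟨mem_univ _, ?_⟩, mem_insert_of_mem
            (mem_filter.mpr ⟨mem_univ _, hxy.symm⟩)⟩
          have := SimpleGraph.dist_le q
          omega
    refine (card_le_card hsub).trans ((card_biUnion_le_card_mul _ _ (Δ + 1) ?_).trans ?_)
    · intro y _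
      refine (card_insert_le _ _).trans ?_
      exact Nat.add_le_add_right (hΔ y) 1
    · rw [pow_succ]
      exact Nat.mul_le_mul_right _ ih

theorem exists_far {G : SimpleGraph V} (hc : G.Connected) {Δ k R : ℕ} (hΔ : ∀ x, dg G x ≤ Δ)
    (Z : Finset V) (hZ : Z.card ≤ k) (hn : k * (Δ + 1) ^ R < Fintype.card V) :
    ∃ u, ∀ z ∈ Z, R < G.dist u z := by
  by_contra hcon
  push Not at hcon
  have hsub : (univ : Finset V) ⊆ Z.biUnion (fun z => univ.filter (fun x => G.dist x z ≤ R)) := by
    intro u _
    obtain ⟨z, hz, h⟩ := hcon u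
    exact mem_biUnion.mpr ⟨z, hz, mem_filter.mpr ⟨mem_univ _, h⟩⟩
  have h1 := card_le_card hsub
  have h2 := card_biUnion_le_card_mul Z (fun z => univ.filter (fun x => G.dist x z ≤ R))
    ((Δ + 1) ^ R) (fun z _ => ball_card hc hΔ z R)
  have h3 := Nat.mul_le_mul_right ((Δ + 1) ^ R) hZ
  rw [card_univ] at h1
  omega

theorem exists_max_dg (G : SimpleGraph V) [Nonempty V] : ∃ x, ∀ y, dg G y ≤ dg G x :=
  Finite.exists_max (dg G)

/-- the number of the degrees is at most `k + Δ / 2 + 1` -/
theorem card_degrees (G : SimpleGraph V) (D : ℕ → Prop) (hD : ∀ k, D k → ¬ D (k + 1)) {k Δ : ℕ}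
    (hΔ : ∀ x, dg G x ≤ Δ) (hZ : (univ.filter (fun z => ¬ D (dg G z))).card ≤ k) :
    2 * (univ.image (dg G)).card ≤ 2 * k + Δ + 2 := by
  have h1 := card_filter_add_card_filter_not (s := univ.image (dg G)) D
  have h2 : ((univ.image (dg G)).filter (fun j => ¬ D j)).card ≤ k := by
    refine le_trans ?_ hZ
    have h3 : (univ.image (dg G)).filter (fun j => ¬ D j) ⊆
        (univ.filter (fun z => ¬ D (dg G z))).image (dg G) := by
      intro j hj
      rw [mem_filter, mem_image] at hj
      obtain ⟨⟨x, _, rfl⟩, h4⟩ := hj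
      exact mem_image_of_mem _ (mem_filter.mpr ⟨mem_univ _, h4⟩)
    exact (card_le_card h3).trans card_image_le
  have h5 : ((univ.image (dg G)).filter D).card ≤ (range (Δ / 2 + 1)).card := by
    apply card_le_card_of_injOn (fun j => j / 2)
    · intro j hj
      rw [mem_coe, mem_filter, mem_image] at hj
      obtain ⟨⟨x, _, rfl⟩, _⟩ := hj
      rw [mem_coe, mem_range]
      have := hΔ x
      show dg G x / 2 < Δ / 2 + 1
      omega
    · intro i hi j hj h
      rw [mem_coe, mem_filter] at hi hj
      have h' : i / 2 = j / 2 := h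
      by_contra hne
      have h6 : j = i + 1 ∨ i = j + 1 := by omega
      rcases h6 with h6 | h6
      · exact hD i hi.2 (h6 ▸ hj.2)
      · exact hD j hj.2 (h6 ▸ hi.2)
  rw [card_range] at h5
  omega

/-- **Connected graphs with a vertex which is far from the exceptional vertices.** -/
theorem bigConn (G : SimpleGraph V) (hV : 3 ≤ Fintype.card V) (hc : G.Connected) (D : ℕ → Prop)
    (hD : ∀ k, D k → ¬ D (k + 1)) (s k : ℕ)
    (hZ : (univ.filter (fun z => ¬ D (dg G z))).card ≤ k) (u : V)
    (hu : ∀ z, ¬ D (dg G z) → 2 ^ (k + 1) * (k ^ 2 + s + 4) + s + 3 < G.dist u z)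
    (hLC : ∀ v, D (dg G v) → (∀ a, G.Adj v a → D (dg G a)) → LC G v s) :
    Reconstructible G ∧ Reconstructible Gᶜ := by
  by_cases hZ0 : ∃ z, ¬ D (dg G z)
  · obtain ⟨z0, hz0⟩ := hZ0
    refine rec_of G _ (fun H π hH hNI hP => ?_) hLC
    set M := 2 ^ k * (k ^ 2 + s + 4) with hM
    have hE : 2 ^ (k + 1) * (k ^ 2 + s + 4) + s + 3 = 2 * M + s + 3 := by
      rw [hM, pow_succ]
      ring
    rw [hE] at hu
    obtain ⟨p, hp⟩ := hc.exists_walk_length_eq_dist u z0
    have hL := hu z0 hz0
    have g0 : p.getVert 0 = u := p.getVert_zero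
    have gL : p.getVert (G.dist u z0) = z0 := by
      rw [← hp]
      exact p.getVert_length
    have hadj : ∀ i, i < G.dist u z0 → G.Adj (p.getVert i) (p.getVert (i + 1)) := by
      intro i hi
      exact p.adj_getVert_succ (by rw [hp]; exact hi)
    have hgd := geod hc hadj (by rw [g0, gL])
    have hfar : ∀ i, i ≤ M → ∀ z, ¬ D (dg G z) → M + s + 4 ≤ G.dist (p.getVert i) z := by
      intro i hi z hz
      have h1 := hu z hz
      have h2 := hgd 0 i (by omega) (by omega)
      have h3 := hc.dist_triangle (u := u) (v := p.getVert i) (w := z)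
      rw [g0] at h2
      omega
    have hfar2 : ∀ i, i ≤ M → ∀ z, ¬ D (dg G z) → s + 2 ≤ G.dist (p.getVert i) z :=
      fun i hi z hz => by have := hfar i hi z hz; omega
    have hkM : 2 * k + 4 ≤ 2 * M := by
      have h1 : 1 ≤ 2 ^ k := Nat.one_le_two_pow
      have h2 : k + 2 ≤ k ^ 2 + s + 4 := by nlinarith
      nlinarith
    have hs : s + 2 * (univ.image (dg G)).card ≤ Fintype.card V := by
      have : Nonempty V := ⟨u⟩
      obtain ⟨x, hx⟩ := exists_max_dg G
      have h1 := card_degrees G D hD hx hZ
      -- a neighbourhood and a shortest path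
      set L := G.dist u z0 with hLdef
      set I := (range (L + 1)).filter (fun i => G.dist (p.getVert i) x ≤ 1) with hI
      have hIm : ∀ i, i ∈ I ↔ i < L + 1 ∧ G.dist (p.getVert i) x ≤ 1 := by
        intro i
        rw [hI, mem_filter, mem_range]
      have hI3 : I.card ≤ 3 := by
        rcases I.eq_empty_or_nonempty with h2 | h2
        · rw [h2, card_empty]
          omega
        · have h3 : I ⊆ Icc (I.min' h2) (I.min' h2 + 2) := by
            intro i hi
            rw [mem_Icc]
            have h4 := min'_le I i hi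
            refine ⟨h4, ?_⟩
            have h5 := (hIm _).mp (min'_mem I h2)
            have hi := (hIm i).mp hi
            have h6 := hgd (I.min' h2) i h4 (by omega)
            have h7 := hc.dist_triangle (u := p.getVert (I.min' h2)) (v := x) (w := p.getVert i)
            have h8 : G.dist x (p.getVert i) ≤ 1 := by
              rw [SimpleGraph.dist_comm]
              exact hi.2
            omega
          refine (card_le_card h3).trans ?_
          rw [Nat.card_Icc]
          omega
      have hJ : ((range (L + 1)) \ I).card + (dg G x + 1) ≤ Fintype.card V := by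
        have h2 : (((range (L + 1)) \ I).image p.getVert).card = ((range (L + 1)) \ I).card := by
          apply card_image_of_injOn
          intro i hi j hj hij
          rw [mem_coe, mem_sdiff, mem_range] at hi hj
          have hij' : p.getVert i = p.getVert j := hij
          rcases le_total i j with h3 | h3
          · have h4 := hgd i j h3 (by omega)
            rw [hij', SimpleGraph.dist_self] at h4
            omega
          · have h4 := hgd j i h3 (by omega)
            rw [hij', SimpleGraph.dist_self] at h4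
            omega
        have h5 : (insert x (univ.filter (fun y => G.Adj x y))).card = dg G x + 1 := by
          rw [card_insert_of_notMem (by simp)]
          rfl
        rw [← h2, ← h5, ← card_union_of_disjoint, ← card_univ]
        · exact card_le_card (subset_univ _)
        · rw [Finset.disjoint_left]
          intro y hy hy'
          rw [mem_image] at hy
          obtain ⟨i, hi, rfl⟩ := hy
          rw [mem_sdiff] at hi
          apply hi.2
          rw [hI, mem_filter]
          refine ⟨hi.1, ?_⟩
          rw [mem_insert, mem_filter] at hy'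
          rcases hy' with h6 | h6
          · rw [h6, SimpleGraph.dist_self]
            omega
          · exact (SimpleGraph.dist_eq_one_iff_adj.mpr h6.2.symm).le
      have hK : ((range (L + 1)) \ I).card = L + 1 - I.card := by
        rw [card_sdiff_of_subset (filter_subset _ _), card_range]
      omega
    exact big hV hc hD hH hNI hs hZ (by omega : s + 4 ≤ M + s + 4) (by omega) hM.ge p.getVert
      (fun i j hij hj => hgd i j hij (by omega)) hfar
      (fun i hi => hP _ (far_deg (hfar2 i hi)) (fun a ha => far_nbr (hfar2 i hi) ha))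
  · push Not at hZ0
    refine crit G hV u (fun a _ h => ?_)
    obtain ⟨x, _, _, hx⟩ := h
    have h1 := hZ0 a
    rw [hx] at h1
    exact absurd h1 (hD _ (hZ0 x))

/-- disconnected graphs -/
theorem disc (G : SimpleGraph V) (hV : 3 ≤ Fintype.card V) (hc : ¬ G.Connected) :
    Reconstructible G ∧ Reconstructible Gᶜ := by
  obtain ⟨v0⟩ : Nonempty V := Fintype.card_pos_iff.mp (by omega)
  have hpre : ∃ x y, ¬ G.Reachable x y := by
    by_contra hcon
    push Not at hcon
    exact hc ((SimpleGraph.connected_iff G).mpr ⟨hcon, ⟨v0⟩⟩)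
  obtain ⟨x, y, hxy⟩ := hpre
  have hnadj : ∀ a b, G.Reachable x a → ¬ G.Reachable x b → ¬ G.Adj a b := by
    intro a b h1 h2 h3
    exact h2 (h1.trans h3.reachable)
  refine Pool.Agent.R694.RC.main G hV univ (fun _ => 0) Tame.start (Or.inr
    ⟨univ.filter (fun a => G.Reachable x a), subset_univ _,
      ⟨x, mem_filter.mpr ⟨mem_univ _, SimpleGraph.Reachable.refl x⟩⟩,
      ⟨y, mem_sdiff.mpr ⟨mem_univ _, fun h => hxy (mem_filter.mp h).2⟩⟩, ?_⟩)
  intro a ha b hb a' ha' b' hb' _
  have k1 : ∀ c, c ∈ (univ : Finset V) \ univ.filter (fun a => G.Reachable x a) →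
      ¬ G.Reachable x c := fun c hc' h =>
    (mem_sdiff.mp hc').2 (mem_filter.mpr ⟨mem_univ _, h⟩)
  exact iff_of_false (hnadj a b (mem_filter.mp ha).2 (k1 b hb))
    (hnadj a' b' (mem_filter.mp ha').2 (k1 b' hb'))

/-- **Large graphs of bounded degree.** -/
theorem bigMain (G : SimpleGraph V) (hV : 3 ≤ Fintype.card V) (D : ℕ → Prop)
    (hD : ∀ k, D k → ¬ D (k + 1)) (s k Δ : ℕ) (hΔ : ∀ x, dg G x ≤ Δ)
    (hZ : (univ.filter (fun z => ¬ D (dg G z))).card ≤ k)
    (hn : k * (Δ + 1) ^ (2 ^ (k + 1) * (k ^ 2 + s + 4) + s + 3) < Fintype.card V)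
    (hLC : ∀ v, D (dg G v) → (∀ a, G.Adj v a → D (dg G a)) → LC G v s) :
    Reconstructible G ∧ Reconstructible Gᶜ := by
  by_cases hc : G.Connected
  · obtain ⟨u, hu⟩ := exists_far hc hΔ _ hZ hn
    exact bigConn G hV hc D hD s k hZ u (fun z hz => hu z (mem_filter.mpr ⟨mem_univ _, hz⟩)) hLC
  · exact disc G hV hc

end Pool.Agent.U392.SW
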