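import Pool.Agent.R694.RC.Tame

set_option autoImplicit false
set_option linter.unusedSectionVars false

/-!
# Replacing the neighbours of one vertex in a hypomorphic graph: counting copies of vertex-transitive
graphs
-/

namespace Pool.Agent.U392.SW

open Finset Classical
open Pool.Agent.H234RC (Hypo NonIso Reconstructible)
open Pool.Agent.R694.RC

variable {V : Type} [Fintype V] {m : ℕ}

/-- the injective homomorphisms from `F` to `G` -/
noncomputable def em (F : SimpleGraph (Fin (m + 1))) (G : SimpleGraph V) :
    Finset (Fin (m + 1) → V) :=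
  univ.filter (fun f => Function.Injective f ∧ ∀ i j, F.Adj i j → G.Adj (f i) (f j))

/-- those with `f 0 = v` -/
noncomputable def emr (F : SimpleGraph (Fin (m + 1))) (G : SimpleGraph V) (v : V) :
    Finset (Fin (m + 1) → V) :=
  (em F G).filter (fun f => f 0 = v)

theorem mem_em (F : SimpleGraph (Fin (m + 1))) (G : SimpleGraph V) (f : Fin (m + 1) → V) :
    f ∈ em F G ↔ Function.Injective f ∧ ∀ i j, F.Adj i j → G.Adj (f i) (f j) := by
  simp [em]

theorem mem_emr (F : SimpleGraph (Fin (m + 1))) (G : SimpleGraph V) (v : V)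
    (f : Fin (m + 1) → V) : f ∈ emr F G v ↔
      (Function.Injective f ∧ ∀ i j, F.Adj i j → G.Adj (f i) (f j)) ∧ f 0 = v := by
  rw [emr, mem_filter, mem_em]

/-- the copies avoiding `v` -/
theorem avoid_eq {G H : SimpleGraph V} {π : V → Equiv.Perm V} (hH : Hypo G H π)
    (F : SimpleGraph (Fin (m + 1))) (v : V) :
    ((em F H).filter (fun f => ∀ i, f i ≠ v)).card =
      ((em F G).filter (fun f => ∀ i, f i ≠ v)).card := by
  symm
  apply Finset.card_equiv ((Equiv.refl (Fin (m + 1))).arrowCongr (π v))
  intro f
  have hval : ∀ i, ((Equiv.refl (Fin (m + 1))).arrowCongr (π v)) f i = π v (f i) := by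
    intro i
    simp [Equiv.arrowCongr]
  rw [mem_filter, mem_filter, mem_em, mem_em]
  have hne : ∀ x, π v x ≠ v ↔ x ≠ v := by
    intro x
    constructor
    · intro h1 h2
      exact h1 (by rw [h2, hH.fix])
    · intro h1 h2
      exact h1 ((π v).injective (by rw [h2, hH.fix]))
  simp only [hval, hne]
  constructor
  · rintro ⟨⟨h1, h2⟩, h3⟩
    refine ⟨⟨?_, fun i j hij => ?_⟩, h3⟩
    · intro i j hij
      rw [hval, hval] at hij
      exact h1 ((π v).injective hij)
    · exact (hH.adj v _ _ (h3 i) (h3 j)).mpr (h2 i j hij)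
  · rintro ⟨⟨h1, h2⟩, h3⟩
    refine ⟨⟨?_, fun i j hij => ?_⟩, h3⟩
    · intro i j hij
      apply h1
      rw [hval, hval, hij]
    · exact (hH.adj v _ _ (h3 i) (h3 j)).mp (h2 i j hij)

theorem sum_avoid (F : SimpleGraph (Fin (m + 1))) (G : SimpleGraph V) :
    ∑ v : V, ((em F G).filter (fun f => ∀ i, f i ≠ v)).card =
      (em F G).card * (Fintype.card V - (m + 1)) := by
  have h1 : ∀ v : V, ((em F G).filter (fun f => ∀ i, f i ≠ v)).card =
      ∑ f ∈ em F G, if (∀ i, f i ≠ v) then 1 else 0 := fun v => card_filter _ _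
  rw [sum_congr rfl (fun v _ => h1 v), sum_comm, card_eq_sum_ones, sum_mul]
  apply sum_congr rfl
  intro f hf
  rw [one_mul, ← card_filter]
  have h2 : univ.filter (fun v : V => ∀ i, f i ≠ v) = univ \ univ.image f := by
    ext v
    simp
  rw [h2, card_sdiff_of_subset (subset_univ _), card_univ,
    card_image_of_injective _ ((mem_em F G f).mp hf).1, card_univ, Fintype.card_fin]

/-- Kelly's lemma -/
theorem em_card {G H : SimpleGraph V} {π : V → Equiv.Perm V} (hH : Hypo G H π)
    (F : SimpleGraph (Fin (m + 1))) (hm : m + 1 < Fintype.card V) :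
    (em F H).card = (em F G).card := by
  have h1 := sum_avoid F G
  have h2 := sum_avoid F H
  rw [sum_congr rfl (fun v _ => avoid_eq hH F v), h1] at h2
  have h3 : 0 < Fintype.card V - (m + 1) := by omega
  exact (Nat.eq_of_mul_eq_mul_right h3 h2).symm

/-- the copies through `v` are those with one of the vertices at `v` -/
theorem through (F : SimpleGraph (Fin (m + 1)))
    (hF : ∀ i j, ∃ σ : Equiv.Perm (Fin (m + 1)), (∀ x y, F.Adj (σ x) (σ y) ↔ F.Adj x y) ∧ σ i = j)
    (G : SimpleGraph V) (v : V) :
    (em F G).card = ((em F G).filter (fun f => ∀ i, f i ≠ v)).card +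
      (m + 1) * (emr F G v).card := by
  rw [← card_filter_add_card_filter_not (s := em F G) (fun f => ∀ i, f i ≠ v)]
  congr 1
  have h1 : (em F G).filter (fun f => ¬ ∀ i, f i ≠ v) =
      univ.biUnion (fun i : Fin (m + 1) => (em F G).filter (fun f => f i = v)) := by
    ext f
    simp only [mem_filter, mem_biUnion, mem_univ, true_and, not_forall, not_not]
    constructor
    · rintro ⟨h, i, hi⟩
      exact ⟨i, h, hi⟩
    · rintro ⟨i, h, hi⟩
      exact ⟨h, i, hi⟩
  rw [h1, card_biUnion]
  · have h2 : ∀ i ∈ (univ : Finset (Fin (m + 1))),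
        ((em F G).filter (fun f => f i = v)).card = (emr F G v).card := by
      intro i _
      obtain ⟨σ, hσ, hσ0⟩ := hF 0 i
      apply Finset.card_equiv (σ.symm.arrowCongr (Equiv.refl V))
      intro f
      have hval : ∀ j, (σ.symm.arrowCongr (Equiv.refl V)) f j = f (σ j) := by
        intro j
        simp [Equiv.arrowCongr]
      rw [mem_filter, mem_em, mem_emr, hval, hσ0]
      constructor
      · rintro ⟨⟨h3, h4⟩, h5⟩
        refine ⟨⟨?_, fun x y hxy => ?_⟩, h5⟩
        · intro x y hxy
          rw [hval, hval] at hxy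
          exact σ.injective (h3 hxy)
        · rw [hval, hval]
          exact h4 _ _ ((hσ x y).mpr hxy)
      · rintro ⟨⟨h3, h4⟩, h5⟩
        refine ⟨⟨?_, fun x y hxy => ?_⟩, h5⟩
        · intro x y hxy
          have h6 : (σ.symm.arrowCongr (Equiv.refl V)) f (σ.symm x) =
              (σ.symm.arrowCongr (Equiv.refl V)) f (σ.symm y) := by
            rw [hval, hval]
            simpa using hxy
          exact σ.symm.injective (h3 h6)
        · have h6 := h4 (σ.symm x) (σ.symm y) (by
            rw [← hσ]
            simpa using hxy)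
          rw [hval, hval] at h6
          simpa using h6
    rw [sum_congr rfl h2, sum_const, card_univ, Fintype.card_fin, smul_eq_mul]
  · intro i _ j _ hij
    rw [Function.onFun, Finset.disjoint_left]
    intro f h2 h3
    rw [mem_filter] at h2 h3
    exact hij (((mem_em F G f).mp h2.1).1 (h2.2.trans h3.2.symm))

/-- the numbers of copies of a vertex-transitive graph with less than `n` vertices through
corresponding vertices are the same -/
theorem emr_card {G H : SimpleGraph V} {π : V → Equiv.Perm V} (hH : Hypo G H π)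
    (F : SimpleGraph (Fin (m + 1)))
    (hF : ∀ i j, ∃ σ : Equiv.Perm (Fin (m + 1)), (∀ x y, F.Adj (σ x) (σ y) ↔ F.Adj x y) ∧ σ i = j)
    (hm : m + 1 < Fintype.card V) (v : V) : (emr F H v).card = (emr F G v).card := by
  have h1 := through F hF G v
  have h2 := through F hF H v
  rw [avoid_eq hH F v, em_card hH F hm] at h2
  have h3 : (m + 1) * (emr F H v).card = (m + 1) * (emr F G v).card := by omega
  exact Nat.eq_of_mul_eq_mul_left (Nat.succ_pos m) h3

end Pool.Agent.U392.SW
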