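import Pool.Agent.U392.SW.Mom

set_option autoImplicit false
set_option linter.unusedSectionVars false

/-!
# Paths in `G - v`, cycles through `v`
-/

namespace Pool.Agent.U392.SW

open Finset Classical
open Pool.Agent.H234RC (Hypo NonIso Reconstructible)
open Pool.Agent.R694.RC

variable {V : Type} [Fintype V]

/-- paths of length `t` in `G - v` -/
def PathIn (G : SimpleGraph V) (v : V) (t : ℕ) (x : Fin (t + 1) → V) : Prop :=
  PathG G t x ∧ ∀ i, x i ≠ v

theorem PathG.rev {G : SimpleGraph V} {t : ℕ} {x : Fin (t + 1) → V} (h : PathG G t x) :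
    PathG G t (fun i => x i.rev) := by
  refine ⟨fun i j hij => Fin.rev_injective (h.1 hij), fun i => ?_⟩
  show G.Adj (x i.castSucc.rev) (x i.succ.rev)
  rw [Fin.rev_castSucc, Fin.rev_succ]
  exact (h.2 i.rev).symm

theorem PathIn.rev {G : SimpleGraph V} {v : V} {t : ℕ} {x : Fin (t + 1) → V}
    (h : PathIn G v t x) : PathIn G v t (fun i => x i.rev) :=
  ⟨h.1.rev, fun i => h.2 i.rev⟩

theorem PathG.init {G : SimpleGraph V} {t k : ℕ} {x : Fin (t + 1) → V} (h : PathG G t x)
    (hk : k + 1 ≤ t + 1) : PathG G k (fun j => x (Fin.castLE hk j)) := by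
  refine ⟨fun i j hij => ?_, fun i => ?_⟩
  · have h1 := h.1 hij
    exact Fin.castLE_injective hk h1
  · have h1 := h.2 (Fin.castLE (Nat.le_of_succ_le_succ hk) i)
    exact h1

/-- the paths of length `t` of `G - v` from `P` to `Q` -/
noncomputable def pc (G : SimpleGraph V) (v : V) (t : ℕ) (P Q : Finset V) :
    Finset (Fin (t + 1) → V) :=
  univ.filter (fun x => PathIn G v t x ∧ x 0 ∈ P ∧ x (Fin.last t) ∈ Q)

theorem mem_pc (G : SimpleGraph V) (v : V) (t : ℕ) (P Q : Finset V) (x : Fin (t + 1) → V) :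
    x ∈ pc G v t P Q ↔ PathIn G v t x ∧ x 0 ∈ P ∧ x (Fin.last t) ∈ Q := by
  simp [pc]

theorem pc_left (G : SimpleGraph V) (v : V) (t : ℕ) (P P' Q : Finset V) (h : Disjoint P P') :
    (pc G v t (P ∪ P') Q).card = (pc G v t P Q).card + (pc G v t P' Q).card := by
  rw [← card_union_of_disjoint]
  · congr 1
    ext x
    simp only [mem_union, mem_pc]
    tauto
  · rw [Finset.disjoint_left]
    intro x h1 h2
    rw [mem_pc] at h1 h2
    exact Finset.disjoint_left.mp h h1.2.1 h2.2.1

theorem pc_right (G : SimpleGraph V) (v : V) (t : ℕ) (P Q Q' : Finset V) (h : Disjoint Q Q') :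
    (pc G v t P (Q ∪ Q')).card = (pc G v t P Q).card + (pc G v t P Q').card := by
  rw [← card_union_of_disjoint]
  · congr 1
    ext x
    simp only [mem_union, mem_pc]
    tauto
  · rw [Finset.disjoint_left]
    intro x h1 h2
    rw [mem_pc] at h1 h2
    exact Finset.disjoint_left.mp h h1.2.2 h2.2.2

/-- a cycle -/
def cyc (t : ℕ) : SimpleGraph (Fin (t + 1 + 1)) where
  Adj i j := i ≠ j ∧ (j = i + 1 ∨ i = j + 1)
  symm := ⟨fun _ _ h => ⟨h.1.symm, h.2.symm⟩⟩
  loopless := ⟨fun _ h => h.1 rfl⟩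

theorem cyc_trans (t : ℕ) (i j : Fin (t + 1 + 1)) : ∃ σ : Equiv.Perm (Fin (t + 1 + 1)),
    (∀ x y, (cyc t).Adj (σ x) (σ y) ↔ (cyc t).Adj x y) ∧ σ i = j := by
  refine ⟨Equiv.addRight (j - i), fun x y => ?_, ?_⟩
  · simp only [Equiv.coe_addRight, cyc]
    have h1 : ∀ a b : Fin (t + 1 + 1), (b + (j - i) = a + (j - i) + 1 ↔ b = a + 1) := by
      intro a b
      have h2 : a + (j - i) + 1 = a + 1 + (j - i) := add_right_comm a (j - i) 1
      rw [h2]
      exact add_left_inj (j - i)
    rw [h1, h1]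
    simp only [ne_eq, add_left_inj]
  · simp

theorem emr_cyc (G : SimpleGraph V) (v : V) (t : ℕ) (N : Finset V) (hN : ∀ x, x ∈ N ↔ G.Adj v x) :
    (emr (cyc t) G v).card = (pc G v t N N).card := by
  have e0 : (0 : Fin (t + 1 + 1)) + 1 = (0 : Fin (t + 1)).succ := by
    ext
    simp
  have e1 : ∀ m : Fin t, (m.castSucc.succ : Fin (t + 1 + 1)) + 1 = m.succ.succ := by
    intro m
    ext
    rw [Fin.val_add]
    simp only [Fin.val_succ, Fin.val_castSucc, Fin.val_one]
    exact Nat.mod_eq_of_lt (by have := m.2; omega)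
  have e2 : ((Fin.last t).succ : Fin (t + 1 + 1)) + 1 = 0 := by
    rw [Fin.succ_last]
    exact Fin.last_add_one _
  apply Finset.card_nbij' (fun f => fun k : Fin (t + 1) => f k.succ)
    (fun x => (Fin.cons v x : Fin (t + 1 + 1) → V))
  · intro f hf
    rw [mem_coe, mem_emr] at hf
    obtain ⟨⟨h1, h2⟩, h3⟩ := hf
    rw [mem_coe, mem_pc]
    refine ⟨⟨⟨fun i j hij => ?_, fun i => ?_⟩, fun i => ?_⟩, ?_, ?_⟩
    · exact Fin.succ_injective _ (h1 hij)
    · apply h2
      refine ⟨fun h => ?_, Or.inl (e1 i).symm⟩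
      have := Fin.succ_injective _ h
      exact absurd this (Fin.castSucc_lt_succ).ne
    · intro h
      rw [← h3] at h
      exact Fin.succ_ne_zero _ (h1 h)
    · rw [hN, ← h3]
      exact h2 _ _ ⟨(Fin.succ_ne_zero _).symm, Or.inl e0.symm⟩
    · rw [hN, ← h3]
      exact h2 _ _ ⟨(Fin.succ_ne_zero _).symm, Or.inr e2.symm⟩
  · intro x hx
    rw [mem_coe, mem_pc] at hx
    obtain ⟨⟨⟨h1, h2⟩, h3⟩, h4, h5⟩ := hx
    rw [hN] at h4 h5
    rw [mem_coe, mem_emr]
    have hstep : ∀ i : Fin (t + 1 + 1), G.Adj ((Fin.cons v x : Fin (t + 1 + 1) → V) i)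
        ((Fin.cons v x : Fin (t + 1 + 1) → V) (i + 1)) := by
      intro i
      induction i using Fin.cases with
      | zero =>
        rw [e0, Fin.cons_zero, Fin.cons_succ]
        exact h4
      | succ k =>
        induction k using Fin.lastCases with
        | last =>
          rw [e2, Fin.cons_zero, Fin.cons_succ]
          exact h5.symm
        | cast m =>
          rw [e1, Fin.cons_succ, Fin.cons_succ]
          exact h2 m
    refine ⟨⟨?_, ?_⟩, rfl⟩
    · rw [Fin.cons_injective_iff]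
      refine ⟨?_, h1⟩
      rintro ⟨i, hi⟩
      exact h3 i hi
    · rintro i j ⟨_, h6 | h6⟩
      · rw [h6]
        exact hstep i
      · rw [h6]
        exact (hstep j).symm
  · intro f hf
    rw [mem_coe, mem_emr] at hf
    funext i
    induction i using Fin.cases with
    | zero => exact hf.2.symm
    | succ k => rfl
  · intro x _
    rfl

end Pool.Agent.U392.SW
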