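import Pool.Agent.U392.SW.Cyc

set_option autoImplicit false
set_option linter.unusedSectionVars false

/-!
# A vertex which is not a local cut vertex, far from the vertices of deficient degree
-/

namespace Pool.Agent.U392.SW

open Finset Classical
open Pool.Agent.H234RC (Hypo NonIso Reconstructible)
open Pool.Agent.R694.RC
open Pool.Agent.TH87.RVE

variable {V : Type} [Fintype V]

/-- `G` with the neighbourhood of `v` replaced by `B` -/
def rep (G : SimpleGraph V) (v : V) (B : Finset V) : SimpleGraph V where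
  Adj x y := (x ≠ v ∧ y ≠ v ∧ G.Adj x y) ∨ (x = v ∧ y ≠ v ∧ y ∈ B) ∨ (y = v ∧ x ≠ v ∧ x ∈ B)
  symm := ⟨by
    rintro x y (⟨h1, h2, h3⟩ | ⟨h1, h2, h3⟩ | ⟨h1, h2, h3⟩)
    · exact Or.inl ⟨h2, h1, h3.symm⟩
    · exact Or.inr (Or.inr ⟨h1, h2, h3⟩)
    · exact Or.inr (Or.inl ⟨h1, h2, h3⟩)⟩
  loopless := ⟨by
    rintro x (⟨_, _, h3⟩ | ⟨h1, h2, _⟩ | ⟨h1, h2, _⟩)
    · exact G.irrefl h3
    · exact h2 h1
    · exact h2 h1⟩

theorem swapdata {G H : SimpleGraph V} {π : V → Equiv.Perm V} (hH : Hypo G H π)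
    (hN : NonIso G H) (hV : 3 ≤ Fintype.card V) (v : V) (G' : SimpleGraph V)
    (hG' : G' = H.comap (π v)) :
    (∀ x y, x ≠ v → y ≠ v → (G'.Adj x y ↔ G.Adj x y)) ∧
    (∀ x, x ≠ v → dg G' x = kp G v x + if G'.Adj x v then 1 else 0) ∧
    (∀ s, G'.Adj v s → ∃ a, G.Adj v a ∧ kp G v a = kp G v s) ∧
    (∀ a, G.Adj v a → ∃ s, G'.Adj v s ∧ kp G v s = kp G v a) ∧
    (∃ z, z ≠ v ∧ ¬ (G'.Adj z v ↔ G.Adj z v)) ∧ dg G' v = dg G v := by
  have hadj : ∀ x y, x ≠ v → y ≠ v → (G'.Adj x y ↔ G.Adj x y) := by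
    intro x y hx hy
    rw [hG', SimpleGraph.comap_adj]
    exact hH.adj v x y hx hy
  have hκ' : ∀ x, x ≠ v → dg G' x = kp G v x + if G'.Adj x v then 1 else 0 := by
    intro x hx
    rw [dg_eq G' v x]
    congr 1
    unfold kp
    congr 1
    ext y
    rw [mem_filter, mem_filter]
    constructor
    · rintro ⟨h1, h2⟩
      exact ⟨h1, (hadj x y hx (mem_erase.mp h1).1).mp h2⟩
    · rintro ⟨h1, h2⟩
      exact ⟨h1, (hadj x y hx (mem_erase.mp h1).1).mpr h2⟩
  have hκ : ∀ x, dg G x = kp G v x + if G.Adj x v then 1 else 0 := fun x => dg_eq G v x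
  refine ⟨hadj, hκ', ?_, ?_, ?_, ?_⟩
  · intro s hs
    have hsv : s ≠ v := hs.ne'
    have h1 := nk hH hV v G' hG' (kp G v s + 1)
    have h2 : s ∈ (univ.erase v).filter (fun x => G'.Adj x v ∧ dg G' x = kp G v s + 1) := by
      rw [mem_filter, mem_erase]
      refine ⟨⟨hsv, mem_univ _⟩, hs.symm, ?_⟩
      rw [hκ' s hsv, if_pos hs.symm]
    have h3 : 0 < ((univ.erase v).filter (fun x => G.Adj x v ∧ dg G x = kp G v s + 1)).card := by
      rw [← h1]
      exact card_pos.mpr ⟨s, h2⟩
    obtain ⟨a, ha⟩ := card_pos.mp h3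
    rw [mem_filter] at ha
    refine ⟨a, ha.2.1.symm, ?_⟩
    have h4 := hκ a
    rw [if_pos ha.2.1] at h4
    have h5 := ha.2.2
    omega
  · intro a ha
    have hav : a ≠ v := ha.ne'
    have h1 := nk hH hV v G' hG' (kp G v a + 1)
    have h2 : a ∈ (univ.erase v).filter (fun x => G.Adj x v ∧ dg G x = kp G v a + 1) := by
      rw [mem_filter, mem_erase]
      refine ⟨⟨hav, mem_univ _⟩, ha.symm, ?_⟩
      rw [hκ a, if_pos ha.symm]
    have h3 : 0 < ((univ.erase v).filter (fun x => G'.Adj x v ∧ dg G' x = kp G v a + 1)).card := by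
      rw [h1]
      exact card_pos.mpr ⟨a, h2⟩
    obtain ⟨b, hb⟩ := card_pos.mp h3
    rw [mem_filter, mem_erase] at hb
    refine ⟨b, hb.2.1.symm, ?_⟩
    have h4 := hκ' b hb.1.1
    rw [if_pos hb.2.1] at h4
    have h5 := hb.2.2
    omega
  · by_contra hcon
    push Not at hcon
    apply hN
    refine ⟨π v, fun x y => ?_⟩
    have h1 : H.Adj (π v x) (π v y) ↔ G'.Adj x y := by
      rw [hG', SimpleGraph.comap_adj]
    rw [h1]
    by_cases hx : x = v
    · by_cases hy : y = v
      · rw [hx, hy]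
        exact ⟨fun h => absurd h G'.irrefl, fun h => absurd h G.irrefl⟩
      · rw [hx, G'.adj_comm, G.adj_comm]
        exact hcon y hy
    · by_cases hy : y = v
      · rw [hy]
        exact hcon x hx
      · exact hadj x y hx hy
  · rw [hG', dg_comap, hH.fix, dg_hypo hH hV]

theorem local_str (G : SimpleGraph V) (hV : 3 ≤ Fintype.card V) {H : SimpleGraph V}
    {π : V → Equiv.Perm V} (hH : Hypo G H π) (hNI : NonIso G H) (v : V) (s : ℕ)
    (hs : s + 2 * (univ.image (dg G)).card ≤ Fintype.card V)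
    (hdiff : ∀ a b, G.Adj v a → G.Adj v b → dg G a ≠ dg G b + 1)
    (hconn : ∀ A : Finset V, (∃ a ∈ A, G.Adj v a) → (∃ c, c ∉ A ∧ G.Adj v c) →
      ∃ t, t ≤ s ∧ ∃ x, PathIn G v t x ∧ G.Adj v (x 0) ∧ x 0 ∈ A ∧ G.Adj v (x (Fin.last t)) ∧
        x (Fin.last t) ∉ A)
    (hfar : ∀ t, t ≤ s → ∀ x, PathIn G v t x → G.Adj v (x 0) → ¬ Tv G v (x (Fin.last t)))
    (N : Finset V) (hN : ∀ x, x ∈ N ↔ G.Adj v x) :
    ∃ B : Finset V, (∀ x ∈ B, Tv G v x) ∧ B.card = dg G v ∧
      (∀ t, t ≤ s → ∀ x, PathIn G v t x → x 0 ∈ B → Tv G v (x (Fin.last t)) →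
        x (Fin.last t) ∈ B) ∧
      (∀ t, 1 ≤ t → t ≤ s → (pc G v t B B).card = (pc G v t N N).card) ∧
      H.comap (π v) = rep G v B ∧ ∀ a, G.Adj v a → ∃ b ∈ B, dg G a = dg G b + 1 := by
  obtain ⟨G', hG'⟩ : ∃ G' : SimpleGraph V, G' = H.comap (π v) := ⟨_, rfl⟩
  obtain ⟨hadj, hκ', hcl, hcl2, ⟨z, hzv, hz⟩, hdv⟩ := swapdata hH hNI hV v G' hG'
  have hκ : ∀ x, dg G x = kp G v x + if G.Adj x v then 1 else 0 := fun x => dg_eq G v x
  set S : Finset V := univ.filter (fun x => G'.Adj v x) with hSdef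
  have hS : ∀ x, x ∈ S ↔ G'.Adj v x := by
    intro x
    simp [S]
  set T : Finset V := univ.filter (fun x => Tv G v x) with hTdef
  have hT : ∀ x, x ∈ T ↔ Tv G v x := by
    intro x
    simp [T]
  have hTN : ∀ x ∈ T, x ∉ N := fun x h1 h2 => ((hT x).mp h1).2.1 ((hN x).mp h2)
  -- `S ⊆ N ∪ T`
  have hST : ∀ x ∈ S, x ∉ N → x ∈ T := by
    intro x hx hxN
    rw [hS] at hx
    rw [hN] at hxN
    rw [hT]
    obtain ⟨a, ha, hka⟩ := hcl x hx
    refine ⟨hx.ne', hxN, a, ha, ?_⟩
    rw [hκ a, hκ x, if_pos ha.symm, if_neg (fun h => hxN h.symm), hka]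
  have hcardN : N.card = dg G v := by
    unfold dg
    congr 1
    ext x
    rw [hN]
    simp
  have hcardS : S.card = dg G v := by
    rw [← hdv]
    unfold dg
    congr 1
  set A := N \ S with hA
  set B := S \ N with hBdef
  set C := N ∩ S with hC
  set D := T \ S with hD
  have hNCA : N = C ∪ A := by
    ext x
    simp only [hC, hA, mem_union, mem_inter, mem_sdiff]
    tauto
  have hSCB : S = C ∪ B := by
    ext x
    simp only [hC, hBdef, mem_union, mem_inter, mem_sdiff]
    tauto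
  have hTDB : T = D ∪ B := by
    ext x
    simp only [hD, hBdef, mem_union, mem_sdiff]
    constructor
    · intro h
      by_cases h1 : x ∈ S
      · exact Or.inr ⟨h1, hTN x h⟩
      · exact Or.inl ⟨h, h1⟩
    · rintro (h | h)
      · exact h.1
      · exact hST x h.1 h.2
  have dCA : Disjoint C A := by
    rw [Finset.disjoint_left]
    intro x h1 h2
    exact (mem_sdiff.mp h2).2 (mem_inter.mp h1).2
  have dCB : Disjoint C B := by
    rw [Finset.disjoint_left]
    intro x h1 h2
    exact (mem_sdiff.mp h2).2 (mem_inter.mp h1).1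
  have dDB : Disjoint D B := by
    rw [Finset.disjoint_left]
    intro x h1 h2
    exact (mem_sdiff.mp h1).2 (mem_sdiff.mp h2).1
  have dAD : Disjoint A D := by
    rw [Finset.disjoint_left]
    intro x h1 h2
    exact hTN x (mem_sdiff.mp h2).1 (mem_sdiff.mp h1).1
  have hAB : A.card = B.card := by
    have h1 : N.card = C.card + A.card := by
      rw [hNCA, card_union_of_disjoint dCA]
    have h2 : S.card = C.card + B.card := by
      rw [hSCB, card_union_of_disjoint dCB]
    omega
  have hAne : A.Nonempty := by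
    by_contra hcon
    rw [not_nonempty_iff_eq_empty] at hcon
    have hB0 : B = ∅ := by
      rw [← card_eq_zero, ← hAB, hcon, card_empty]
    apply hz
    have h1 : z ∉ A := by
      rw [hcon]
      exact notMem_empty z
    have h2 : z ∉ B := by
      rw [hB0]
      exact notMem_empty z
    rw [hA, mem_sdiff, hN, hS] at h1
    rw [hBdef, mem_sdiff, hN, hS] at h2
    rw [G'.adj_comm, G.adj_comm]
    tauto
  have hBne : B.Nonempty := by
    rw [← card_pos, ← hAB]
    exact card_pos.mpr hAne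
  -- there are at least two different degrees
  have hr : 2 ≤ (univ.image (dg G)).card := by
    obtain ⟨b, hb⟩ := hBne
    have hbT : b ∈ T := by
      rw [hTDB]
      exact mem_union_right _ hb
    obtain ⟨_, _, a, ha, hab⟩ := (hT b).mp hbT
    apply Finset.one_lt_card.mpr
    refine ⟨dg G a, mem_image_of_mem _ (mem_univ a), dg G b, mem_image_of_mem _ (mem_univ b), ?_⟩
    omega
  have hκA : ∀ x ∈ N, dg G x = kp G v x + 1 := by
    intro x hx
    rw [hκ x, if_pos ((hN x).mp hx).symm]
  -- no short paths between neighbours and `T`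
  have far1 : ∀ t, t ≤ s → ∀ x, PathIn G v t x → x 0 ∈ N → x (Fin.last t) ∉ T := by
    intro t ht x hx h0 h1
    exact hfar t ht x hx ((hN _).mp h0) ((hT _).mp h1)
  have far2 : ∀ t, t ≤ s → ∀ x, PathIn G v t x → x 0 ∈ T → x (Fin.last t) ∉ N := by
    intro t ht x hx h0 h1
    refine far1 t ht _ hx.rev ?_ ?_
    · rw [Fin.rev_zero]
      exact h1
    · rw [Fin.rev_last]
      exact h0
  have pc0 : ∀ t, t ≤ s → ∀ P Q : Finset V, P ⊆ N → Q ⊆ T →
      (pc G v t P Q).card = 0 ∧ (pc G v t Q P).card = 0 := by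
    intro t ht P Q hP hQ
    constructor
    · rw [card_eq_zero, eq_empty_iff_forall_notMem]
      intro x hx
      rw [mem_pc] at hx
      exact far1 t ht x hx.1 (hP hx.2.1) (hQ hx.2.2)
    · rw [card_eq_zero, eq_empty_iff_forall_notMem]
      intro x hx
      rw [mem_pc] at hx
      exact far2 t ht x hx.1 (hQ hx.2.1) (hP hx.2.2)
  have sCN : C ⊆ N := inter_subset_left
  have sAN : A ⊆ N := sdiff_subset
  have sBT : B ⊆ T := by
    rw [hTDB]
    exact subset_union_right
  have sDT : D ⊆ T := sdiff_subset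
  -- first equation
  have e1 : ∀ t, 1 ≤ t → t ≤ s → (pc G v t C A).card + (pc G v t A C).card +
      (pc G v t A A).card = (pc G v t B B).card := by
    intro t ht1 ht
    have h1 : (pc G' v t S S).card = (pc G v t N N).card := by
      rw [← emr_cyc G v t N hN, ← emr_cyc G' v t S hS]
      rw [hG', emr_comap (cyc t) H (π v) v (hH.fix v)]
      exact emr_card hH (cyc t) (cyc_trans t) (by omega) v
    have h2 : pc G' v t S S = pc G v t S S := by
      ext x
      rw [mem_pc, mem_pc]
      have : PathIn G' v t x ↔ PathIn G v t x := by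
        unfold PathIn PathG
        constructor
        · rintro ⟨⟨h3, h4⟩, h5⟩
          exact ⟨⟨h3, fun i => (hadj _ _ (h5 _) (h5 _)).mp (h4 i)⟩, h5⟩
        · rintro ⟨⟨h3, h4⟩, h5⟩
          exact ⟨⟨h3, fun i => (hadj _ _ (h5 _) (h5 _)).mpr (h4 i)⟩, h5⟩
      rw [this]
    rw [h2] at h1
    have h3 : (pc G v t N N).card = (pc G v t C C).card + (pc G v t C A).card +
        ((pc G v t A C).card + (pc G v t A A).card) := by
      rw [hNCA, pc_left G v t C A _ dCA, pc_right G v t C C A dCA, pc_right G v t A C A dCA]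
    have h4 : (pc G v t S S).card = (pc G v t C C).card + (pc G v t C B).card +
        ((pc G v t B C).card + (pc G v t B B).card) := by
      rw [hSCB, pc_left G v t C B _ dCB, pc_right G v t C C B dCB, pc_right G v t B C B dCB]
    have h5 := pc0 t ht C B sCN sBT
    omega
  -- there are no short paths from `A` to `C` or from `D` to `B`
  let R : ℕ → Prop := fun t => ∃ x, PathIn G v t x ∧
    ((x 0 ∈ A ∧ x (Fin.last t) ∈ C) ∨ (x 0 ∈ D ∧ x (Fin.last t) ∈ B))
  have noR : ∀ t, t ≤ s → ¬ R t := by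
    intro t0 ht0 hRt0
    have hex : ∃ t, R t := ⟨t0, hRt0⟩
    let t := Nat.find hex
    have hRt : R t := Nat.find_spec hex
    have hmin : ∀ k, k < t → ¬ R k := fun k hk => Nat.find_min hex hk
    have hts : t ≤ s := (Nat.find_min' hex hRt0).trans ht0
    have ht1 : 1 ≤ t := by
      by_contra hcon
      have h0 : t = 0 := by omega
      obtain ⟨x, hx, h1⟩ := hRt
      have h2 : x (Fin.last t) = x 0 := by
        congr 1
        ext
        simp [h0]
      rw [h2] at h1
      rcases h1 with h1 | h1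
      · exact Finset.disjoint_left.mp dCA h1.2 h1.1
      · exact Finset.disjoint_left.mp dDB h1.1 h1.2
    -- the degrees in question
    let Kd : ℕ → Prop := fun k => ∃ a, G.Adj v a ∧ dg G a = k + 1
    have hKG : ∀ x, x ≠ v → (Kd (dg G x) ↔ x ∈ T) := by
      intro x hx
      rw [hT]
      constructor
      · rintro ⟨a, ha, hax⟩
        exact ⟨hx, fun h => hdiff a x ha h hax, a, ha, hax⟩
      · rintro ⟨_, _, a, ha, hax⟩
        exact ⟨a, ha, hax⟩
    have hKG' : ∀ x, x ≠ v → (Kd (dg G' x) ↔ x ∈ A ∪ D) := by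
      intro x hx
      have h1 := hκ' x hx
      by_cases hxS : x ∈ S
      · have h2 : G'.Adj v x := (hS x).mp hxS
        rw [if_pos h2.symm] at h1
        obtain ⟨a, ha, hka⟩ := hcl x h2
        have h3 : dg G' x = dg G a := by
          rw [h1, hκA a ((hN a).mpr ha), hka]
        rw [h3]
        constructor
        · rintro ⟨a', ha', h4⟩
          exact absurd h4 (hdiff a' a ha' ha)
        · intro h4
          rcases mem_union.mp h4 with h5 | h5
          · exact absurd hxS (mem_sdiff.mp h5).2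
          · exact absurd hxS (mem_sdiff.mp h5).2
      · have h2 : ¬ G'.Adj x v := fun h => hxS ((hS x).mpr h.symm)
        rw [if_neg h2, add_zero] at h1
        rw [h1]
        by_cases hxN : x ∈ N
        · constructor
          · intro _
            exact mem_union_left _ (mem_sdiff.mpr ⟨hxN, hxS⟩)
          · intro _
            exact ⟨x, (hN x).mp hxN, hκA x hxN⟩
        · have h3 : kp G v x = dg G x := by
            rw [hκ x, if_neg (fun h => hxN ((hN x).mpr h.symm)), add_zero]
          rw [h3, hKG x hx]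
          constructor
          · intro h4
            exact mem_union_right _ (mem_sdiff.mpr ⟨h4, hxS⟩)
          · intro h4
            rcases mem_union.mp h4 with h5 | h5
            · exact absurd (mem_sdiff.mp h5).1 hxN
            · exact (mem_sdiff.mp h5).1
    -- paths in `G` with both ends in the class avoid `v`
    have av : ∀ x : Fin (t + 1) → V, PathG G t x → Kd (dg G (x 0)) → ∀ i, 0 < i.val → x i ≠ v := by
      intro x hx h0 i hi hiv
      have hk : (i.val - 1) + 1 ≤ t + 1 := by have := i.2; omega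
      have hy := hx.init hk
      have hne : ∀ j : Fin (i.val - 1 + 1), x (Fin.castLE hk j) ≠ v := by
        intro j hj
        have h1 := hx.1 (hj.trans hiv.symm)
        have h2 := congrArg Fin.val h1
        rw [Fin.val_castLE] at h2
        have := j.2
        omega
      have hyI : PathIn G v (i.val - 1) (fun j => x (Fin.castLE hk j)) := ⟨hy, hne⟩
      refine far2 (i.val - 1) (by have := i.2; omega) _ hyI ?_ ?_
      · have h3 : x (Fin.castLE hk 0) = x 0 := rfl
        show x (Fin.castLE hk 0) ∈ T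
        rw [← hKG _ (hne 0), h3]
        exact h0
      · show x (Fin.castLE hk (Fin.last (i.val - 1))) ∈ N
        rw [hN]
        have h4 := hx.2 ⟨i.val - 1, by have := i.2; omega⟩
        have h5 : x (Fin.succ ⟨i.val - 1, by have := i.2; omega⟩) = v :=
          (congrArg x (Fin.ext (by simp only [Fin.val_succ]; omega))).trans hiv
        rw [h5] at h4
        exact h4.symm
    have av' : ∀ x : Fin (t + 1) → V, PathG G' t x → Kd (dg G' (x 0)) → ∀ i, 0 < i.val →
        x i ≠ v := by
      intro x hx h0 i hi hiv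
      have hk : (i.val - 1) + 1 ≤ t + 1 := by have := i.2; omega
      have hy := hx.init hk
      have hne : ∀ j : Fin (i.val - 1 + 1), x (Fin.castLE hk j) ≠ v := by
        intro j hj
        have h1 := hx.1 (hj.trans hiv.symm)
        have h2 := congrArg Fin.val h1
        rw [Fin.val_castLE] at h2
        have := j.2
        omega
      have hyI : PathIn G v (i.val - 1) (fun j => x (Fin.castLE hk j)) :=
        ⟨⟨hy.1, fun j => (hadj _ _ (hne _) (hne _)).mp (hy.2 j)⟩, hne⟩
      have hfirst : x (Fin.castLE hk 0) ∈ A ∪ D := by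
        rw [← hKG' _ (hne 0)]
        exact h0
      have hlast : x (Fin.castLE hk (Fin.last (i.val - 1))) ∈ C ∪ B := by
        rw [← hSCB, hS]
        have h4 := hx.2 ⟨i.val - 1, by have := i.2; omega⟩
        have h5 : x (Fin.succ ⟨i.val - 1, by have := i.2; omega⟩) = v :=
          (congrArg x (Fin.ext (by simp only [Fin.val_succ]; omega))).trans hiv
        rw [h5] at h4
        exact h4.symm
      have hlt : i.val - 1 < t := by have := i.2; omega
      rcases mem_union.mp hfirst with h1 | h1 <;> rcases mem_union.mp hlast with h2 | h2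
      · exact hmin _ hlt ⟨_, hyI, Or.inl ⟨h1, h2⟩⟩
      · exact far1 _ (hlt.le.trans hts) _ hyI (sAN h1) (sBT h2)
      · exact far2 _ (hlt.le.trans hts) _ hyI (sDT h1) (sCN h2)
      · exact hmin _ hlt ⟨_, hyI, Or.inr ⟨h1, h2⟩⟩
    have avall : ∀ x : Fin (t + 1) → V, PathG G t x → Kd (dg G (x 0)) →
        Kd (dg G (x (Fin.last t))) → ∀ i, x i ≠ v := by
      intro x hx h0 h1 i
      by_cases hi : 0 < i.val
      · exact av x hx h0 i hi
      · have h2 := av _ hx.rev (by rw [Fin.rev_zero]; exact h1) (Fin.last t) (by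
          rw [Fin.val_last]
          omega)
        rw [Fin.rev_last] at h2
        have h3 : i = 0 := by
          ext
          rw [Fin.val_zero]
          omega
        rw [h3]
        exact h2
    have avall' : ∀ x : Fin (t + 1) → V, PathG G' t x → Kd (dg G' (x 0)) →
        Kd (dg G' (x (Fin.last t))) → ∀ i, x i ≠ v := by
      intro x hx h0 h1 i
      by_cases hi : 0 < i.val
      · exact av' x hx h0 i hi
      · have h2 := av' _ hx.rev (by rw [Fin.rev_zero]; exact h1) (Fin.last t) (by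
          rw [Fin.val_last]
          omega)
        rw [Fin.rev_last] at h2
        have h3 : i = 0 := by
          ext
          rw [Fin.val_zero]
          omega
        rw [h3]
        exact h2
    have p1 : pe G Kd t = pc G v t T T := by
      ext x
      rw [mem_pc, mem_pe]
      constructor
      · rintro ⟨h1, h2, h3⟩
        have h4 := avall x h1 h2 h3
        exact ⟨⟨h1, h4⟩, (hKG _ (h4 0)).mp h2, (hKG _ (h4 _)).mp h3⟩
      · rintro ⟨⟨h1, h4⟩, h2, h3⟩
        exact ⟨h1, (hKG _ (h4 0)).mpr h2, (hKG _ (h4 _)).mpr h3⟩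
    have p2 : pe G' Kd t = pc G v t (A ∪ D) (A ∪ D) := by
      ext x
      rw [mem_pc, mem_pe]
      constructor
      · rintro ⟨h1, h2, h3⟩
        have h4 := avall' x h1 h2 h3
        exact ⟨⟨⟨h1.1, fun i => (hadj _ _ (h4 _) (h4 _)).mp (h1.2 i)⟩, h4⟩,
          (hKG' _ (h4 0)).mp h2, (hKG' _ (h4 _)).mp h3⟩
      · rintro ⟨⟨h1, h4⟩, h2, h3⟩
        exact ⟨⟨h1.1, fun i => (hadj _ _ (h4 _) (h4 _)).mpr (h1.2 i)⟩,
          (hKG' _ (h4 0)).mpr h2, (hKG' _ (h4 _)).mpr h3⟩
    have p3 : (pe G' Kd t).card = (pe G Kd t).card := by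
      rw [pe_comap H (π v) G' hG', pe_hypo hH hV Kd t (by omega)]
    rw [p1, p2] at p3
    have h3 : (pc G v t T T).card = (pc G v t D D).card + (pc G v t D B).card +
        ((pc G v t B D).card + (pc G v t B B).card) := by
      rw [hTDB, pc_left G v t D B _ dDB, pc_right G v t D D B dDB, pc_right G v t B D B dDB]
    have h4 : (pc G v t (A ∪ D) (A ∪ D)).card = (pc G v t A A).card + (pc G v t A D).card +
        ((pc G v t D A).card + (pc G v t D D).card) := by
      rw [pc_left G v t A D _ dAD, pc_right G v t A A D dAD, pc_right G v t D A D dAD]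
    have h5 := pc0 t hts A D sAN sDT
    have h6 := e1 t ht1 hts
    have h7 : (pc G v t A C).card = 0 ∧ (pc G v t D B).card = 0 := by omega
    obtain ⟨x, hx, h8 | h8⟩ := hRt
    · have h9 : x ∈ pc G v t A C := (mem_pc G v t A C x).mpr ⟨hx, h8⟩
      rw [card_eq_zero.mp h7.1] at h9
      exact notMem_empty x h9
    · have h9 : x ∈ pc G v t D B := (mem_pc G v t D B x).mpr ⟨hx, h8⟩
      rw [card_eq_zero.mp h7.2] at h9
      exact notMem_empty x h9
  -- `C` is empty
  have hCempty : C = ∅ := by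
    by_contra hCne
    rw [← ne_eq, ← nonempty_iff_ne_empty] at hCne
    obtain ⟨a, ha⟩ := hAne
    obtain ⟨c, hc⟩ := hCne
    obtain ⟨t, ht, x, h1, h2, h3, h4, h5⟩ := hconn A ⟨a, ha, (hN a).mp (sAN ha)⟩
      ⟨c, fun h => Finset.disjoint_left.mp dCA hc h, (hN c).mp (sCN hc)⟩
    refine noR t ht ⟨x, h1, Or.inl ⟨h3, ?_⟩⟩
    have h6 : x (Fin.last t) ∈ N := (hN _).mpr h4
    rw [hNCA, mem_union] at h6
    exact h6.resolve_right h5
  -- the remaining case
  have hAN : A = N := by
    rw [hNCA, hCempty, empty_union]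
  have hSB : S = B := by
    rw [hSCB, hCempty, empty_union]
  refine ⟨B, fun x hx => (hT x).mp (sBT hx), by rw [← hAB, hAN, hcardN], ?_, ?_, ?_, ?_⟩
  · intro t ht x hx h0 h1
    by_contra h2
    refine noR t ht ⟨_, hx.rev, Or.inr ⟨?_, ?_⟩⟩
    · show x (Fin.rev 0) ∈ D
      rw [Fin.rev_zero]
      have h3 : x (Fin.last t) ∈ T := (hT _).mpr h1
      rw [hTDB, mem_union] at h3
      exact h3.resolve_right h2
    · show x (Fin.rev (Fin.last t)) ∈ B
      rw [Fin.rev_last]
      exact h0
  · intro t ht1 hts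
    have h1 := e1 t ht1 hts
    have h2 : (pc G v t C A).card = 0 := by
      rw [card_eq_zero, eq_empty_iff_forall_notMem]
      intro x hx
      rw [mem_pc, hCempty] at hx
      exact notMem_empty _ hx.2.1
    have h3 : (pc G v t A C).card = 0 := by
      rw [card_eq_zero, eq_empty_iff_forall_notMem]
      intro x hx
      rw [mem_pc, hCempty] at hx
      exact notMem_empty _ hx.2.2
    rw [h2, h3, hAN] at h1
    omega
  · rw [← hG']
    ext x y
    have hSx : ∀ x, G'.Adj v x ↔ x ∈ B := by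
      intro x
      rw [← hS, hSB]
    show G'.Adj x y ↔ (x ≠ v ∧ y ≠ v ∧ G.Adj x y) ∨ (x = v ∧ y ≠ v ∧ y ∈ B) ∨
      (y = v ∧ x ≠ v ∧ x ∈ B)
    by_cases hx : x = v
    · by_cases hy : y = v
      · rw [hx, hy]
        simp
      · rw [hx, hSx]
        simp [hy]
    · by_cases hy : y = v
      · rw [hy, G'.adj_comm, hSx]
        simp [hx]
      · rw [hadj x y hx hy]
        simp [hx, hy]
  · intro a ha
    obtain ⟨b, hb, hab⟩ := hcl2 a ha
    have hbB : b ∈ B := by
      rw [← hSB, hS]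
      exact hb
    have hbN : ¬ G.Adj v b := ((hT b).mp (sBT hbB)).2.1
    refine ⟨b, hbB, ?_⟩
    rw [hκ a, hκ b, if_pos ha.symm, if_neg (fun h => hbN h.symm), hab]

theorem local_core (G : SimpleGraph V) (hV : 3 ≤ Fintype.card V) {H : SimpleGraph V}
    {π : V → Equiv.Perm V} (hH : Hypo G H π) (hNI : NonIso G H) (v : V) (s : ℕ)
    (hs : s + 2 * (univ.image (dg G)).card ≤ Fintype.card V)
    (hdiff : ∀ a b, G.Adj v a → G.Adj v b → dg G a ≠ dg G b + 1)
    (hconn : ∀ A : Finset V, (∃ a ∈ A, G.Adj v a) → (∃ c, c ∉ A ∧ G.Adj v c) →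
      ∃ t, t ≤ s ∧ ∃ x, PathIn G v t x ∧ G.Adj v (x 0) ∧ x 0 ∈ A ∧ G.Adj v (x (Fin.last t)) ∧
        x (Fin.last t) ∉ A)
    (hfar : ∀ t, t ≤ s → ∀ x, PathIn G v t x → G.Adj v (x 0) → ¬ Tv G v (x (Fin.last t)))
    (N : Finset V) (hN : ∀ x, x ∈ N ↔ G.Adj v x)
    (hB : ∀ B : Finset V, (∀ x ∈ B, Tv G v x) → B.card = dg G v →
      (∀ t, t ≤ s → ∀ x, PathIn G v t x → x 0 ∈ B → Tv G v (x (Fin.last t)) →
        x (Fin.last t) ∈ B) →
      ∃ t, 1 ≤ t ∧ t ≤ s ∧ (pc G v t B B).card ≠ (pc G v t N N).card) : False := by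
  obtain ⟨B, h1, h2, h3, h4, _, _⟩ := local_str G hV hH hNI v s hs hdiff hconn hfar N hN
  obtain ⟨t, ht1, hts, hne⟩ := hB B h1 h2 h3
  exact hne (h4 t ht1 hts)

end Pool.Agent.U392.SW
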