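import Pool.Agent.U392.SW.Core

set_option autoImplicit false
set_option linter.unusedSectionVars false

/-!
# The swap criterion
-/

namespace Pool.Agent.U392.SW

open Finset Classical
open Pool.Agent.H234RC (Hypo NonIso Reconstructible)
open Pool.Agent.R694.RC
open Pool.Agent.TH87.RVE

variable {V : Type} [Fintype V] {m : ℕ}

/-- the degree -/
noncomputable def dg (G : SimpleGraph V) (x : V) : ℕ := (univ.filter (fun y => G.Adj x y)).card

/-- the degree without `v` -/
noncomputable def kp (G : SimpleGraph V) (v x : V) : ℕ :=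
  ((univ.erase v).filter (fun y => G.Adj x y)).card

theorem dg_eq (G : SimpleGraph V) (v x : V) :
    dg G x = kp G v x + if G.Adj x v then 1 else 0 := by
  unfold dg kp
  rw [card_fe univ v (mem_univ v) (fun y => G.Adj x y)]

theorem dg_hypo {G H : SimpleGraph V} {π : V → Equiv.Perm V} (hH : Hypo G H π)
    (hV : 3 ≤ Fintype.card V) (x : V) : dg H x = dg G x := by
  have h := k2 (univ : Finset V) (by rwa [card_univ]) π hH.fix (fun v _ x _ => mem_univ _)
    (fun x y => G.Adj x y) (fun x y => H.Adj x y) (fun x y h => h.symm) (fun x y h => h.symm)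
    (fun x h => G.irrefl h) (fun x h => H.irrefl h)
    (fun v _ x _ y _ hxv hyv => hH.adj v x y hxv hyv) x (mem_univ x)
  unfold dg
  convert h

theorem dg_comap (H : SimpleGraph V) (σ : Equiv.Perm V) (x : V) :
    dg (H.comap σ) x = dg H (σ x) := by
  unfold dg
  apply Finset.card_equiv σ
  intro y
  simp [SimpleGraph.comap_adj]

theorem emr_comap (F : SimpleGraph (Fin (m + 1))) (H : SimpleGraph V) (σ : Equiv.Perm V) (v : V)
    (hv : σ v = v) : (emr F (H.comap σ) v).card = (emr F H v).card := by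
  apply Finset.card_equiv ((Equiv.refl (Fin (m + 1))).arrowCongr σ)
  intro f
  have hval : ∀ i, ((Equiv.refl (Fin (m + 1))).arrowCongr σ) f i = σ (f i) := by
    intro i
    simp [Equiv.arrowCongr]
  rw [mem_emr, mem_emr]
  simp only [hval, SimpleGraph.comap_adj]
  constructor
  · rintro ⟨⟨h1, h2⟩, h3⟩
    refine ⟨⟨?_, h2⟩, by rw [h3, hv]⟩
    intro i j hij
    rw [hval, hval] at hij
    exact h1 (σ.injective hij)
  · rintro ⟨⟨h1, h2⟩, h3⟩
    refine ⟨⟨?_, h2⟩, ?_⟩
    · intro i j hij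
      apply h1
      rw [hval, hval, hij]
    · apply σ.injective
      rw [h3, hv]

theorem count_step (G : SimpleGraph V) (v : V) (κ : V → ℕ)
    (hκ : ∀ x, x ≠ v → dg G x = κ x + if G.Adj x v then 1 else 0) (k : ℕ) :
    ((univ.erase v).filter (fun x => κ x = k)).card +
      ((univ.erase v).filter (fun x => G.Adj x v ∧ dg G x = k)).card =
    ((univ.erase v).filter (fun x => dg G x = k)).card +
      ((univ.erase v).filter (fun x => G.Adj x v ∧ dg G x = k + 1)).card := by
  simp only [card_filter]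
  rw [← sum_add_distrib, ← sum_add_distrib]
  apply sum_congr rfl
  intro x hx
  have h1 := hκ x (mem_erase.mp hx).1
  by_cases h2 : G.Adj x v
  · simp only [h2, if_true, true_and] at h1 ⊢
    rw [h1]
    by_cases h3 : κ x = k
    · simp [h3]
    · simp [h3]
  · simp only [h2, if_false, false_and, add_zero] at h1 ⊢
    rw [h1]

theorem nk {G H : SimpleGraph V} {π : V → Equiv.Perm V} (hH : Hypo G H π)
    (hV : 3 ≤ Fintype.card V) (v : V) (G' : SimpleGraph V) (hG' : G' = H.comap (π v)) (k : ℕ) :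
    ((univ.erase v).filter (fun x => G'.Adj x v ∧ dg G' x = k)).card =
      ((univ.erase v).filter (fun x => G.Adj x v ∧ dg G x = k)).card := by
  have hadj : ∀ x y, x ≠ v → y ≠ v → (G'.Adj x y ↔ G.Adj x y) := by
    intro x y hx hy
    rw [hG', SimpleGraph.comap_adj]
    exact hH.adj v x y hx hy
  have hκ' : ∀ x, x ≠ v → dg G' x = kp G v x + if G'.Adj x v then 1 else 0 := by
    intro x hx
    rw [dg_eq G' v x]
    congr 1
    unfold kp
    congr 1
    ext y
    rw [mem_filter, mem_filter]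
    constructor
    · rintro ⟨h1, h2⟩
      exact ⟨h1, (hadj x y hx (mem_erase.mp h1).1).mp h2⟩
    · rintro ⟨h1, h2⟩
      exact ⟨h1, (hadj x y hx (mem_erase.mp h1).1).mpr h2⟩
  have hP : ∀ k, ((univ.erase v).filter (fun x => dg G' x = k)).card =
      ((univ.erase v).filter (fun x => dg G x = k)).card := by
    intro k
    symm
    apply card_mv univ (π v) v (hH.fix v) (fun x _ => mem_univ _) (fun x => dg G' x = k)
      (fun x => dg G x = k)
    intro x _ _
    rw [hG', dg_comap, dg_hypo hH hV]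
  induction k with
  | zero =>
    have h0 : ∀ (K : SimpleGraph V), (∀ x, x ≠ v → dg K x = kp G v x + if K.Adj x v then 1 else 0) →
        ((univ.erase v).filter (fun x => K.Adj x v ∧ dg K x = 0)).card = 0 := by
      intro K hK
      rw [card_eq_zero, filter_eq_empty_iff]
      rintro x hx ⟨h1, h2⟩
      rw [hK x (mem_erase.mp hx).1, if_pos h1] at h2
      omega
    rw [h0 G' hκ', h0 G (fun x _ => dg_eq G v x)]
  | succ k ih =>
    have h1 := count_step G v (kp G v) (fun x _ => dg_eq G v x) k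
    have h2 := count_step G' v (kp G v) hκ' k
    have h3 := hP k
    omega

/-- a non-neighbour of `v`, not `v`, whose degree is one less than the degree of a neighbour -/
def Tv (G : SimpleGraph V) (v x : V) : Prop :=
  x ≠ v ∧ ¬ G.Adj v x ∧ ∃ a, G.Adj v a ∧ dg G a = dg G x + 1

/-- `G` with the additional edges from `v` to these vertices -/
def plus (G : SimpleGraph V) (v : V) : SimpleGraph V where
  Adj x y := G.Adj x y ∨ (x = v ∧ Tv G v y) ∨ (y = v ∧ Tv G v x)
  symm := ⟨by
    rintro x y (h | h | h)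
    · exact Or.inl h.symm
    · exact Or.inr (Or.inr h)
    · exact Or.inr (Or.inl h)⟩
  loopless := ⟨by
    rintro x (h | ⟨h1, h2⟩ | ⟨h1, h2⟩)
    · exact G.irrefl h
    · exact h2.1 h1
    · exact h2.1 h1⟩

theorem crit (G : SimpleGraph V) (hV : 3 ≤ Fintype.card V) (v : V)
    (h : ∀ a, G.Adj v a → (∃ x, x ≠ v ∧ ¬ G.Adj v x ∧ dg G a = dg G x + 1) →
      ∃ (m : ℕ) (F : SimpleGraph (Fin (m + 1))), m + 1 < Fintype.card V ∧
        (∀ i j, ∃ σ : Equiv.Perm (Fin (m + 1)),
          (∀ x y, F.Adj (σ x) (σ y) ↔ F.Adj x y) ∧ σ i = j) ∧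
        ((emr F (plus G v) v).filter (fun f => ∃ i, F.Adj 0 i ∧ Tv G v (f i))).card <
          ((emr F G v).filter (fun f => ∃ i, F.Adj 0 i ∧ f i = a)).card) :
    Reconstructible G ∧ Reconstructible Gᶜ := by
  refine rec_of G _ (fun H π hH hN hfin => ?_) h
  obtain ⟨G', hG'⟩ : ∃ G' : SimpleGraph V, G' = H.comap (π v) := ⟨_, rfl⟩
  have hadj : ∀ x y, x ≠ v → y ≠ v → (G'.Adj x y ↔ G.Adj x y) := by
    intro x y hx hy
    rw [hG', SimpleGraph.comap_adj]
    exact hH.adj v x y hx hy
  have hκ' : ∀ x, x ≠ v → dg G' x = kp G v x + if G'.Adj x v then 1 else 0 := by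
    intro x hx
    rw [dg_eq G' v x]
    congr 1
    unfold kp
    congr 1
    ext y
    rw [mem_filter, mem_filter]
    constructor
    · rintro ⟨h1, h2⟩
      exact ⟨h1, (hadj x y hx (mem_erase.mp h1).1).mp h2⟩
    · rintro ⟨h1, h2⟩
      exact ⟨h1, (hadj x y hx (mem_erase.mp h1).1).mpr h2⟩
  have hκ : ∀ x, dg G x = kp G v x + if G.Adj x v then 1 else 0 := fun x => dg_eq G v x
  -- the classes
  let A : ℕ → Finset V := fun k => (univ.erase v).filter (fun x => G.Adj x v ∧ kp G v x = k)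
  let B : ℕ → Finset V := fun k => (univ.erase v).filter (fun x => G'.Adj x v ∧ kp G v x = k)
  have hA : ∀ k x, x ∈ A k ↔ x ≠ v ∧ G.Adj x v ∧ kp G v x = k := by
    intro k x
    simp [A]
  have hB : ∀ k x, x ∈ B k ↔ x ≠ v ∧ G'.Adj x v ∧ kp G v x = k := by
    intro k x
    simp [B]
  have hAB : ∀ k, (B k).card = (A k).card := by
    intro k
    have h1 := nk hH hV v G' hG' (k + 1)
    have e1 : (univ.erase v).filter (fun x => G'.Adj x v ∧ dg G' x = k + 1) = B k := by
      ext x
      rw [hB, mem_filter, mem_erase]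
      constructor
      · rintro ⟨⟨h2, _⟩, h3, h4⟩
        rw [hκ' x h2, if_pos h3] at h4
        exact ⟨h2, h3, by omega⟩
      · rintro ⟨h2, h3, h4⟩
        refine ⟨⟨h2, mem_univ _⟩, h3, ?_⟩
        rw [hκ' x h2, if_pos h3, h4]
    have e2 : (univ.erase v).filter (fun x => G.Adj x v ∧ dg G x = k + 1) = A k := by
      ext x
      rw [hA, mem_filter, mem_erase]
      constructor
      · rintro ⟨⟨h2, _⟩, h3, h4⟩
        rw [hκ x, if_pos h3] at h4
        exact ⟨h2, h3, by omega⟩
      · rintro ⟨h2, h3, h4⟩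
        refine ⟨⟨h2, mem_univ _⟩, h3, ?_⟩
        rw [hκ x, if_pos h3, h4]
    rw [e1, e2] at h1
    exact h1
  -- the new neighbours
  have hS : ∀ s, G'.Adj v s → G.Adj v s ∨ Tv G v s := by
    intro s hs
    by_cases h1 : G.Adj v s
    · exact Or.inl h1
    · right
      have hsv : s ≠ v := hs.ne'
      have h2 : s ∈ B (kp G v s) := (hB _ _).mpr ⟨hsv, hs.symm, rfl⟩
      have h3 : 0 < (A (kp G v s)).card := by
        rw [← hAB]
        exact card_pos.mpr ⟨s, h2⟩
      obtain ⟨a, ha⟩ := card_pos.mp h3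
      obtain ⟨h4, h5, h6⟩ := (hA _ _).mp ha
      refine ⟨hsv, h1, a, h5.symm, ?_⟩
      rw [hκ a, hκ s, if_pos h5, if_neg (fun h => h1 h.symm), h6]
  -- not all neighbours are the same
  have hne : ∃ z, ¬ (G'.Adj z v ↔ G.Adj z v) := by
    by_contra hcon
    push Not at hcon
    apply hN
    refine ⟨π v, fun x y => ?_⟩
    have h1 : H.Adj (π v x) (π v y) ↔ G'.Adj x y := by
      rw [hG', SimpleGraph.comap_adj]
    rw [h1]
    by_cases hx : x = v
    · rw [hx, G'.adj_comm, G.adj_comm]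
      exact hcon y
    · by_cases hy : y = v
      · rw [hy]
        exact hcon x
      · exact hadj x y hx hy
  obtain ⟨z, hz⟩ := hne
  have hzv : z ≠ v := by
    intro h1
    rw [h1] at hz
    exact hz ⟨fun h => absurd h G'.irrefl, fun h => absurd h G.irrefl⟩
  set k := kp G v z with hk
  have hABne : A k ≠ B k := by
    intro h1
    apply hz
    have h2 : z ∈ A k ↔ z ∈ B k := by rw [h1]
    rw [hA, hB] at h2
    constructor
    · intro h3
      exact (h2.mpr ⟨hzv, h3, rfl⟩).2.1
    · intro h3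
      exact (h2.mp ⟨hzv, h3, rfl⟩).2.1
  obtain ⟨a, ha, ha'⟩ : ∃ a ∈ A k, a ∉ B k := by
    by_contra hcon
    push Not at hcon
    exact hABne (eq_of_subset_of_card_le hcon (hAB k).le)
  obtain ⟨x, hx, hx'⟩ : ∃ x ∈ B k, x ∉ A k := by
    by_contra hcon
    push Not at hcon
    exact hABne (eq_of_subset_of_card_le hcon (hAB k).ge).symm
  rw [hA] at ha hx'
  rw [hB] at ha' hx
  have haG' : ¬ G'.Adj v a := fun h1 => ha' ⟨ha.1, h1.symm, ha.2.2⟩
  have hxG : ¬ G.Adj v x := fun h1 => hx' ⟨hx.1, h1.symm, hx.2.2⟩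
  obtain ⟨m, F, hm, hF, hlt⟩ := hfin a ha.2.1.symm ⟨x, hx.1, hxG, by
    rw [hκ a, hκ x, if_pos ha.2.1, if_neg (fun h => hxG h.symm), ha.2.2, hx.2.2]⟩
  have hcard : (emr F G' v).card = (emr F G v).card := by
    rw [hG', emr_comap F H (π v) v (hH.fix v), emr_card hH F hF hm v]
  have hsub : emr F G v ⊆ emr F (plus G v) v := by
    intro f hf
    rw [mem_emr] at hf ⊢
    exact ⟨⟨hf.1.1, fun i j hij => Or.inl (hf.1.2 i j hij)⟩, hf.2⟩
  have hsub' : emr F G' v ⊆ emr F (plus G v) v := by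
    intro f hf
    rw [mem_emr] at hf ⊢
    refine ⟨⟨hf.1.1, fun i j hij => ?_⟩, hf.2⟩
    have h1 := hf.1.2 i j hij
    by_cases h2 : f i = v
    · rw [h2] at h1 ⊢
      rcases hS _ h1 with h3 | h3
      · exact Or.inl h3
      · exact Or.inr (Or.inl ⟨rfl, h3⟩)
    · by_cases h3 : f j = v
      · rw [h3] at h1 ⊢
        rcases hS _ h1.symm with h4 | h4
        · exact Or.inl h4.symm
        · exact Or.inr (Or.inr ⟨rfl, h4⟩)
      · exact Or.inl ((hadj _ _ h2 h3).mp h1)
  have hd1 : (emr F (plus G v) v \ emr F G v) ⊆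
      (emr F (plus G v) v).filter (fun f => ∃ i, F.Adj 0 i ∧ Tv G v (f i)) := by
    intro f hf
    rw [mem_sdiff] at hf
    rw [mem_filter]
    refine ⟨hf.1, ?_⟩
    have h1 := (mem_emr F _ v f).mp hf.1
    by_contra hcon
    push Not at hcon
    apply hf.2
    rw [mem_emr]
    refine ⟨⟨h1.1.1, fun i j hij => ?_⟩, h1.2⟩
    have h0 : ∀ i, f i = v → i = 0 := fun i hi => h1.1.1 (hi.trans h1.2.symm)
    rcases h1.1.2 i j hij with h2 | ⟨h2, h3⟩ | ⟨h2, h3⟩
    · exact h2
    · rw [h0 i h2] at hij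
      exact absurd h3 (hcon j hij)
    · rw [h0 j h2] at hij
      exact absurd h3 (hcon i hij.symm)
  have hd2 : (emr F G v).filter (fun f => ∃ i, F.Adj 0 i ∧ f i = a) ⊆
      emr F (plus G v) v \ emr F G' v := by
    intro f hf
    rw [mem_filter] at hf
    obtain ⟨h1, i, h2, h3⟩ := hf
    rw [mem_sdiff]
    refine ⟨hsub h1, fun h4 => ?_⟩
    rw [mem_emr] at h4
    have h5 := h4.1.2 0 i h2
    rw [h4.2, h3] at h5
    exact haG' h5
  have c1 := card_le_card hd1
  have c2 := card_le_card hd2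
  rw [card_sdiff_of_subset hsub] at c1
  rw [card_sdiff_of_subset hsub'] at c2
  omega

end Pool.Agent.U392.SW
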