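import Pool.Agent.U392.SW.Main

set_option autoImplicit false
set_option linter.unusedSectionVars false

/-!
# Paths with ends of prescribed degrees: their number is the same in hypomorphic graphs
-/

namespace Pool.Agent.U392.SW

open Finset Classical
open Pool.Agent.H234RC (Hypo NonIso Reconstructible)
open Pool.Agent.R694.RC

variable {V : Type} [Fintype V]

/-- Kelly's lemma for tuples -/
theorem kelly {ι : Type} [Fintype ι] [DecidableEq ι] {π : V → Equiv.Perm V} (hfix : ∀ v, π v v = v)
    (hι : Fintype.card ι < Fintype.card V) (P Q : (ι → V) → Prop)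
    (h : ∀ v y, (∀ i, y i ≠ v) → (Q (fun i => π v (y i)) ↔ P y)) :
    (univ.filter Q).card = (univ.filter P).card := by
  have hm : ∀ m, m ≤ Fintype.card ι →
      (univ.filter (fun y => Q y ∧ (univ.image y).card = m)).card =
        (univ.filter (fun y => P y ∧ (univ.image y).card = m)).card := by
    intro m hm
    have hs : ∀ R : (ι → V) → Prop,
        ∑ v : V, ((univ.filter (fun y => R y ∧ (univ.image y).card = m)).filter
          (fun y => ∀ i, y i ≠ v)).card =
        (univ.filter (fun y => R y ∧ (univ.image y).card = m)).card * (Fintype.card V - m) := by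
      intro R
      have h1 : ∀ v : V, ((univ.filter (fun y => R y ∧ (univ.image y).card = m)).filter
          (fun y => ∀ i, y i ≠ v)).card =
          ∑ y ∈ univ.filter (fun y => R y ∧ (univ.image y).card = m),
            if (∀ i, y i ≠ v) then 1 else 0 := fun v => card_filter _ _
      rw [sum_congr rfl (fun v _ => h1 v), sum_comm, card_eq_sum_ones, sum_mul]
      apply sum_congr rfl
      intro y hy
      rw [one_mul, ← card_filter]
      have h2 : univ.filter (fun v : V => ∀ i, y i ≠ v) = univ \ univ.image y := by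
        ext v
        simp
      rw [h2, card_sdiff_of_subset (subset_univ _), card_univ, (mem_filter.mp hy).2.2]
    have he : ∀ v : V, ((univ.filter (fun y => Q y ∧ (univ.image y).card = m)).filter
          (fun y => ∀ i, y i ≠ v)).card =
        ((univ.filter (fun y => P y ∧ (univ.image y).card = m)).filter
          (fun y => ∀ i, y i ≠ v)).card := by
      intro v
      symm
      apply Finset.card_equiv ((Equiv.refl ι).arrowCongr (π v))
      intro f
      have hval : ((Equiv.refl ι).arrowCongr (π v)) f = fun i => π v (f i) := by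
        funext i
        simp [Equiv.arrowCongr]
      have hne : ∀ x, π v x ≠ v ↔ x ≠ v := by
        intro x
        constructor
        · intro h1 h2
          exact h1 (by rw [h2, hfix])
        · intro h1 h2
          exact h1 ((π v).injective (by rw [h2, hfix]))
      rw [hval]
      simp only [mem_filter, mem_univ, true_and, hne]
      have himg : (univ.image (fun i => π v (f i))).card = (univ.image f).card := by
        rw [← Function.comp_def, ← image_image]
        exact card_image_of_injective _ (π v).injective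
      rw [himg]
      constructor
      · rintro ⟨⟨h1, h2⟩, h3⟩
        exact ⟨⟨(h v f h3).mpr h1, h2⟩, h3⟩
      · rintro ⟨⟨h1, h2⟩, h3⟩
        exact ⟨⟨(h v f h3).mp h1, h2⟩, h3⟩
    have h1 := hs Q
    rw [sum_congr rfl (fun v _ => he v), hs P] at h1
    exact (Nat.eq_of_mul_eq_mul_right (by omega) h1).symm
  have hf : ∀ R : (ι → V) → Prop, (univ.filter R).card =
      ∑ m ∈ range (Fintype.card ι + 1),
        (univ.filter (fun y => R y ∧ (univ.image y).card = m)).card := by
    intro R
    rw [card_eq_sum_card_fiberwise (f := fun y : ι → V => (univ.image y).card)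
      (t := range (Fintype.card ι + 1))]
    · apply sum_congr rfl
      intro m _
      rw [filter_filter]
    · intro y _
      rw [mem_coe, mem_range, Nat.lt_succ_iff]
      exact card_image_le.trans (by rw [card_univ])
  rw [hf Q, hf P]
  apply sum_congr rfl
  intro m hm'
  exact hm m (by rw [mem_range] at hm'; omega)

/-- paths of length `t` -/
def PathG (G : SimpleGraph V) (t : ℕ) (x : Fin (t + 1) → V) : Prop :=
  Function.Injective x ∧ ∀ i : Fin t, G.Adj (x i.castSucc) (x i.succ)

/-- the moments of the degrees of the ends -/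
noncomputable def mom (G : SimpleGraph V) (t i j : ℕ) : ℕ :=
  ∑ x ∈ univ.filter (fun x : Fin (t + 1) → V => PathG G t x),
    dg G (x 0) ^ i * dg G (x (Fin.last t)) ^ j

theorem dg_pow (G : SimpleGraph V) (u : V) (i : ℕ) :
    (univ.filter (fun z : Fin i → V => ∀ a, G.Adj u (z a))).card = dg G u ^ i := by
  have h1 : univ.filter (fun z : Fin i → V => ∀ a, G.Adj u (z a)) =
      Fintype.piFinset (fun _ : Fin i => univ.filter (fun y => G.Adj u y)) := by
    ext z
    simp
  rw [h1, Fintype.card_piFinset]
  simp [dg]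

theorem mom_eq (G : SimpleGraph V) (t i j : ℕ) :
    mom G t i j = (univ.filter (fun y : Fin (t + 1) ⊕ (Fin i ⊕ Fin j) → V =>
      PathG G t (fun k => y (Sum.inl k)) ∧ (∀ a, G.Adj (y (Sum.inl 0)) (y (Sum.inr (Sum.inl a)))) ∧
        ∀ b, G.Adj (y (Sum.inl (Fin.last t))) (y (Sum.inr (Sum.inr b))))).card := by
  have h1 : (univ.filter (fun y : Fin (t + 1) ⊕ (Fin i ⊕ Fin j) → V =>
      PathG G t (fun k => y (Sum.inl k)) ∧ (∀ a, G.Adj (y (Sum.inl 0)) (y (Sum.inr (Sum.inl a)))) ∧
        ∀ b, G.Adj (y (Sum.inl (Fin.last t))) (y (Sum.inr (Sum.inr b))))).card =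
      (univ.filter (fun p : (Fin (t + 1) → V) × ((Fin i → V) × (Fin j → V)) =>
        PathG G t p.1 ∧ (∀ a, G.Adj (p.1 0) (p.2.1 a)) ∧
          ∀ b, G.Adj (p.1 (Fin.last t)) (p.2.2 b))).card := by
    apply Finset.card_equiv ((Equiv.sumArrowEquivProdArrow (Fin (t + 1)) (Fin i ⊕ Fin j) V).trans
      ((Equiv.refl (Fin (t + 1) → V)).prodCongr (Equiv.sumArrowEquivProdArrow (Fin i) (Fin j) V)))
    intro y
    simp only [mem_filter, mem_univ, true_and]
    rfl
  rw [h1, mom]
  have h2 : (univ.filter (fun p : (Fin (t + 1) → V) × ((Fin i → V) × (Fin j → V)) =>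
        PathG G t p.1 ∧ (∀ a, G.Adj (p.1 0) (p.2.1 a)) ∧
          ∀ b, G.Adj (p.1 (Fin.last t)) (p.2.2 b))) =
      (univ.filter (fun x : Fin (t + 1) → V => PathG G t x)).biUnion (fun x =>
        (({x} : Finset (Fin (t + 1) → V)) ×ˢ
          ((univ.filter (fun z : Fin i → V => ∀ a, G.Adj (x 0) (z a))) ×ˢ
            (univ.filter (fun z : Fin j → V => ∀ a, G.Adj (x (Fin.last t)) (z a)))))) := by
    ext ⟨x, z, w⟩
    simp only [mem_filter, mem_univ, true_and, mem_biUnion, mem_product, mem_singleton]
    constructor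
    · rintro ⟨h3, h4, h5⟩
      exact ⟨x, h3, rfl, h4, h5⟩
    · rintro ⟨x', h3, rfl, h4, h5⟩
      exact ⟨h3, h4, h5⟩
  rw [h2, card_biUnion]
  · apply sum_congr rfl
    intro x _
    rw [card_product, card_product, card_singleton, one_mul, dg_pow, dg_pow]
  · intro x _ x' _ hxx
    rw [Function.onFun, Finset.disjoint_left]
    rintro ⟨p, q⟩ h3 h4
    rw [mem_product, mem_singleton] at h3 h4
    exact hxx (h3.1.symm.trans h4.1)

theorem mom_hypo {G H : SimpleGraph V} {π : V → Equiv.Perm V} (hH : Hypo G H π) (t i j : ℕ)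
    (hn : t + 1 + (i + j) < Fintype.card V) : mom H t i j = mom G t i j := by
  rw [mom_eq, mom_eq]
  have key := kelly (ι := Fin (t + 1) ⊕ (Fin i ⊕ Fin j)) hH.fix (by simpa using hn)
    (fun y => PathG G t (fun k => y (Sum.inl k)) ∧
      (∀ a, G.Adj (y (Sum.inl 0)) (y (Sum.inr (Sum.inl a)))) ∧
        ∀ b, G.Adj (y (Sum.inl (Fin.last t))) (y (Sum.inr (Sum.inr b))))
    (fun y => PathG H t (fun k => y (Sum.inl k)) ∧
      (∀ a, H.Adj (y (Sum.inl 0)) (y (Sum.inr (Sum.inl a)))) ∧
        ∀ b, H.Adj (y (Sum.inl (Fin.last t))) (y (Sum.inr (Sum.inr b)))) (by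
      intro v y hy
      unfold PathG
      simp only [hH.adj v _ _ (hy _) (hy _)]
      have : Function.Injective (fun k => π v (y (Sum.inl k))) ↔
          Function.Injective (fun k => y (Sum.inl k)) := by
        constructor
        · intro h k l hkl
          exact h (congrArg (π v) hkl)
        · intro h k l hkl
          exact h ((π v).injective hkl)
      rw [this])
  convert key

/-- the paths of length `t` whose ends have degrees in the set `D` -/
noncomputable def pe (G : SimpleGraph V) (D : ℕ → Prop) (t : ℕ) : Finset (Fin (t + 1) → V) :=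
  univ.filter (fun x => PathG G t x ∧ D (dg G (x 0)) ∧ D (dg G (x (Fin.last t))))

theorem mem_pe (G : SimpleGraph V) (D : ℕ → Prop) (t : ℕ) (x : Fin (t + 1) → V) :
    x ∈ pe G D t ↔ PathG G t x ∧ D (dg G (x 0)) ∧ D (dg G (x (Fin.last t))) := by
  unfold pe
  rw [mem_filter]
  exact ⟨fun h => h.2, fun h => ⟨mem_univ _, h⟩⟩

theorem pe_poly (G : SimpleGraph V) (D : ℕ → Prop) (t r : ℕ) (p : Polynomial ℚ)
    (hp : p.natDegree < r) (hval : ∀ u, p.eval (dg G u : ℚ) = if D (dg G u) then 1 else 0) :
    ((pe G D t).card : ℚ) = ∑ i ∈ range r, ∑ j ∈ range r, p.coeff i * p.coeff j * mom G t i j := by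
  have h1 : ((pe G D t).card : ℚ) =
      ∑ x ∈ univ.filter (fun x : Fin (t + 1) → V => PathG G t x),
        p.eval (dg G (x 0) : ℚ) * p.eval (dg G (x (Fin.last t)) : ℚ) := by
    have h2 : pe G D t = (univ.filter (fun x : Fin (t + 1) → V => PathG G t x)).filter
        (fun x => D (dg G (x 0)) ∧ D (dg G (x (Fin.last t)))) := by
      rw [filter_filter]
      rfl
    rw [h2, card_filter]
    push_cast
    apply sum_congr rfl
    intro x _
    rw [hval, hval]
    by_cases h3 : D (dg G (x 0)) <;> by_cases h4 : D (dg G (x (Fin.last t))) <;> simp [h3, h4]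
  rw [h1]
  have h5 : ∀ u : V, p.eval (dg G u : ℚ) = ∑ i ∈ range r, p.coeff i * (dg G u : ℚ) ^ i :=
    fun u => Polynomial.eval_eq_sum_range' hp _
  simp only [h5, sum_mul_sum, mom]
  push_cast
  simp only [mul_sum]
  rw [sum_comm]
  apply sum_congr rfl
  intro i _
  rw [sum_comm]
  apply sum_congr rfl
  intro j _
  apply sum_congr rfl
  intro x _
  ring

/-- the number of the paths of length `t` whose ends have degrees in `D` is the same in
hypomorphic graphs -/
theorem pe_hypo {G H : SimpleGraph V} {π : V → Equiv.Perm V} (hH : Hypo G H π)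
    (hV : 3 ≤ Fintype.card V) (D : ℕ → Prop) (t : ℕ)
    (hn : t + 2 * (univ.image (dg G)).card ≤ Fintype.card V) :
    (pe H D t).card = (pe G D t).card := by
  have hdg : ∀ x, dg H x = dg G x := dg_hypo hH hV
  set Δ : Finset ℕ := univ.image (dg G) with hΔ
  have hinj : Set.InjOn (fun k : ℕ => (k : ℚ)) (Δ : Set ℕ) := fun a _ b _ h => Nat.cast_injective h
  set p : Polynomial ℚ := Lagrange.interpolate Δ (fun k : ℕ => (k : ℚ))
    (fun k => if D k then 1 else 0) with hp
  have hdeg : p.degree < Δ.card := Lagrange.degree_interpolate_lt _ hinj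
  have hΔ0 : 0 < Δ.card := by
    obtain ⟨x⟩ : Nonempty V := Fintype.card_pos_iff.mp (by omega)
    exact card_pos.mpr ⟨dg G x, mem_image_of_mem _ (mem_univ x)⟩
  have hnat : p.natDegree < Δ.card := by
    by_cases h0 : p = 0
    · rw [h0, Polynomial.natDegree_zero]
      exact hΔ0
    · exact (Polynomial.natDegree_lt_iff_degree_lt h0).mpr hdeg
  have hval : ∀ u, p.eval (dg G u : ℚ) = if D (dg G u) then 1 else 0 := by
    intro u
    rw [hp]
    exact Lagrange.eval_interpolate_at_node (fun k => if D k then (1 : ℚ) else 0) hinj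
      (mem_image_of_mem _ (mem_univ u))
  have h1 := pe_poly G D t Δ.card p hnat hval
  have h2 := pe_poly H D t Δ.card p hnat (fun u => by rw [hdg]; exact hval u)
  have h3 : ((pe H D t).card : ℚ) = (pe G D t).card := by
    rw [h1, h2]
    apply sum_congr rfl
    intro i hi
    apply sum_congr rfl
    intro j hj
    rw [mem_range] at hi hj
    rw [mom_hypo hH t i j (by omega)]
  exact_mod_cast h3

/-- the same for an isomorphic graph -/
theorem pe_comap (H : SimpleGraph V) (σ : Equiv.Perm V) (G' : SimpleGraph V)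
    (hG' : G' = H.comap σ) (D : ℕ → Prop) (t : ℕ) : (pe G' D t).card = (pe H D t).card := by
  apply Finset.card_equiv ((Equiv.refl (Fin (t + 1))).arrowCongr σ)
  intro f
  have hval : ((Equiv.refl (Fin (t + 1))).arrowCongr σ) f = fun i => σ (f i) := by
    funext i
    simp [Equiv.arrowCongr]
  rw [hval]
  have hadj : ∀ x y, G'.Adj x y ↔ H.Adj (σ x) (σ y) := by
    intro x y
    rw [hG', SimpleGraph.comap_adj]
  have hd : ∀ x, dg G' x = dg H (σ x) := by
    intro x
    rw [hG', dg_comap]
  unfold pe PathG
  simp only [mem_filter, mem_univ, true_and, hadj, hd]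
  have : Function.Injective (fun k => σ (f k)) ↔ Function.Injective f := by
    constructor
    · intro h k l hkl
      exact h (congrArg σ hkl)
    · intro h k l hkl
      exact h (σ.injective hkl)
  rw [this]

end Pool.Agent.U392.SW
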